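import Pool.Agent.Q284.GE.Defs

/-!
# Project CT: twists by representations of bounded rank do not suffice in the converse theorem.  Definitions.

`V` is the set of the places of a global function field with `q` constants outside a finite set of places, `T` a set
of twists: `par τ v` are the Satake parameters (at ramified places: the parameters of the local `L`-factor) of the
twist `τ : T` at the place `v`.
-/

set_option autoImplicit false

open Finset Polynomial ComplexConjugate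

namespace Pool.Agent.Q284.CT

/-- the places: `pl j` is the finite set of the places of degree `j`, at most `A q^j / j` of them -/
structure Places {V : Type} (q A : ℝ) (deg : V → ℕ) (pl : ℕ → Finset V) : Prop where
  mem : ∀ (v : V) (j : ℕ), v ∈ pl j ↔ deg v = j
  pos : ∀ v : V, 1 ≤ deg v
  card : ∀ j : ℕ, (j : ℝ) * (pl j).card ≤ A * q ^ j

/-- the power sums of the local parameters of `τ` at `v` -/
noncomputable def lam {V T : Type} {m : ℕ} (par : T → V → Fin m → ℂ) (τ : T) (v : V) (k : ℕ) : ℂ :=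
  ∑ i, par τ v i ^ k

/-- A family of twists of rank at most `m` which satisfies the Ramanujan bound (`bd`), is closed under duals, whose
members have period `per τ` (the number of the unramified twists `|·|^s`, modulo the trivial ones, which fix `τ`:
`per_zero`), is orthogonal with errors of the size which follows from the Riemann hypothesis for the Rankin-Selberg
`L`-functions `L(s, τ × τ')`, of degree `O(c τ + c τ')` (`norm`, `orth`), and has at most `A q^(b X - M)` members of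
conductor `c τ ≤ X` (`card`) -/
structure Family {V T : Type} {m : ℕ} (q A b : ℝ) (M : ℕ) (deg : V → ℕ) (pl : ℕ → Finset V)
    (par : T → V → Fin m → ℂ) (dual : T → T) (per c : T → ℕ) : Prop where
  bd : ∀ (τ : T) (v : V) (i : Fin m), ‖par τ v i‖ ≤ 1
  dual_lam : ∀ (τ : T) (v : V) (k : ℕ), 1 ≤ k → lam par (dual τ) v k = conj (lam par τ v k)
  dual_dual : ∀ τ : T, dual (dual τ) = τ
  dual_per : ∀ τ : T, per (dual τ) = per τ
  dual_c : ∀ τ : T, c (dual τ) = c τ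
  per_pos : ∀ τ : T, 1 ≤ per τ
  per_zero : ∀ (τ : T) (v : V) (k : ℕ), 1 ≤ k → ¬ per τ ∣ k * deg v → lam par τ v k = 0
  norm : ∀ (τ : T) (j : ℕ), 1 ≤ j → per τ ∣ j →
    q ^ j ≤ j * ∑ v ∈ pl j, ‖lam par τ v 1‖ ^ 2 + A * (c τ + 1) * Real.sqrt q ^ j
  orth : ∀ τ τ' : T, τ ≠ τ' → ∀ j : ℕ, 1 ≤ j →
    j * ‖∑ v ∈ pl j, lam par τ v 1 * conj (lam par τ' v 1)‖ ≤ A * (c τ + c τ' + 1) * Real.sqrt q ^ j
  card : ∀ X : ℕ, {τ : T | c τ ≤ X}.Finite ∧ ({τ : T | c τ ≤ X}.ncard : ℝ) ≤ A * q ^ (b * X - M)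

/-- the degrees and the root numbers of the `L`-functions -/
structure Dat {T : Type} (ι : Type) (dual : T → T) (per c : T → ℕ) (D : ι → T → ℕ) (ε : ι → T → ℂ) : Prop where
  deg : ∀ (i : ι) (τ : T), c τ ≤ D i τ
  per : ∀ (i : ι) (τ : T), per τ ∣ D i τ
  degc : ∀ (i : ι) (τ : T), D i (dual τ) = D i τ
  eps : ∀ (i : ι) (τ : T), ‖ε i τ‖ = 1
  epsc : ∀ (i : ι) (τ : T), ε i (dual τ) = conj (ε i τ)

/-- the numerical parameters -/
structure Par (r₀ A B b ϑ : ℝ) (K : ℕ) : Prop where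
  r0 : 0 < r₀
  A1 : 1 ≤ A
  B0 : 0 ≤ B
  b0 : 0 ≤ b
  b1 : b < 1 / 4
  t0 : 0 ≤ ϑ
  K3 : 3 ≤ K
  K1 : 1 < K * (1 / 2 - ϑ)

/-- the exponent `1/2 - 2b` -/
noncomputable def eta (b : ℝ) : ℝ := 1 / 2 - 2 * b

/-- the exponent `κ = min (η/2) (1/6) (1/2 - ϑ - 1/K)` -/
noncomputable def kap (b ϑ : ℝ) (K : ℕ) : ℝ := min (min (eta b / 2) (1 / 6)) (1 / 2 - ϑ - 1 / K)

/-- the conditions on the local power sums -/
structure Loc {V : Type} (ι : Type) (q r₀ B ϑ : ℝ) (K : ℕ) (deg : V → ℕ) (p : ι → V → (ι → ℝ) → ℕ → ℝ) :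
    Prop where
  one : ∀ (i : ι) (v : V) (x : ι → ℝ), (∀ j, |x j| ≤ r₀) → p i v x 1 = x i
  mid : ∀ (i : ι) (v : V) (x : ι → ℝ) (k : ℕ) (t : ℝ), t ≤ r₀ → (∀ j, |x j| ≤ t) → 2 ≤ k → k < K →
    |p i v x k| ≤ B * t
  all : ∀ (i : ι) (v : V) (x : ι → ℝ) (k : ℕ), (∀ j, |x j| ≤ r₀) → 1 ≤ k →
    |p i v x k| ≤ B * q ^ (ϑ * (k * deg v))

section Sums

variable {V ι : Type}

/-- normalised power sums of the twisted `L`-function; `lm v k` are the power sums of the twist -/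
noncomputable def ps (q : ℝ) (pl : ℕ → Finset V) (p : ι → V → (ι → ℝ) → ℕ → ℝ) (a : V → ι → ℝ) (i : ι)
    (lm : V → ℕ → ℂ) (k : ℕ) : ℂ :=
  (∑ d ∈ k.divisors, ∑ v ∈ pl d, (d : ℂ) * (p i v (a v) (k / d) : ℂ) * lm v (k / d)) / (Real.sqrt q : ℂ) ^ k

/-- the part of the prime powers, not normalised -/
noncomputable def pw (pl : ℕ → Finset V) (p : ι → V → (ι → ℝ) → ℕ → ℝ) (a : V → ι → ℝ) (i : ι)
    (lm : V → ℕ → ℂ) (k : ℕ) : ℂ :=
  ∑ d ∈ k.properDivisors, ∑ v ∈ pl d, (d : ℂ) * (p i v (a v) (k / d) : ℂ) * lm v (k / d)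

end Sums

/-- the bound for the parameters in degree `j` -/
noncomputable def al (q A η : ℝ) (m M j : ℕ) : ℝ := 6 * m * A * j * q ^ (-(M : ℝ) - η * j)

/-- the bound for the prime powers in degree `k` -/
noncomputable def Rm (q A B κ : ℝ) (m M k : ℕ) : ℝ :=
  5 * A ^ 2 * B * (m : ℝ) ^ 2 * (k : ℝ) ^ 2 * q ^ (-(M : ℝ) - κ * k) + A * B * m * k * q ^ (-(κ * k))

/-- the bound for the primes in degree `k`, for twists of conductor `c` -/
noncomputable def Lm (q A η : ℝ) (M c k : ℕ) : ℝ :=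
  6 * A ^ 2 * k * q ^ (-(M : ℝ) - η * k) * (c + 2 * k + 1)

/-- the numerical inequalities -/
structure Num (q r₀ A B b η κ : ℝ) (m M : ℕ) : Prop where
  /-- the degrees are positive -/
  dp : ∀ (c D : ℕ), c ≤ D → 1 ≤ A * q ^ (b * c - M) → 1 ≤ D
  /-- the sum condition for the location of the zeros -/
  est : ∀ (c D : ℕ), c ≤ D → 1 ≤ A * q ^ (b * c - M) → ∀ x : ℕ → ℝ, (∀ k, 1 ≤ k → 2 * k < D → 0 ≤ x k ∧
    x k ≤ Lm q A η M c k + Rm q A B κ m M k) →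
    (∑ k ∈ (Icc 1 D).filter (fun k => 2 * k < D), x k / k * (1 + (q ^ (κ / 2)) ^ k)) +
      Real.log (q ^ (κ / 2) / (q ^ (κ / 2) - 1)) < (D : ℝ) / 2 * Real.log (q ^ (κ / 2))
  /-- the parameters are small -/
  sm : ∀ j : ℕ, 1 ≤ j → al q A η m M j ≤ r₀ * q ^ (-(9 / 10 * η * j))
  /-- the prime powers are small -/
  pp : ∀ j : ℕ, 1 ≤ j → 1 ≤ A * q ^ (2 * b * j - M) → Rm q A B κ m M j ≤ j
  /-- diagonal dominance -/
  dd : ∀ j : ℕ, 1 ≤ j → 1 ≤ A * q ^ (2 * b * j - M) →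
    (A * q ^ (2 * b * j - M) + 1) * (A * (4 * j + 1) * Real.sqrt q ^ j) ≤ q ^ j / 2

/-- the stage `N` of the construction -/
structure Inv {V T : Type} {m : ℕ} (ι : Type) (q A B η κ : ℝ) (M : ℕ) (deg : V → ℕ) (pl : ℕ → Finset V)
    (par : T → V → Fin m → ℂ) (c : T → ℕ) (D : ι → T → ℕ) (ε : ι → T → ℂ)
    (p : ι → V → (ι → ℝ) → ℕ → ℝ) (N : ℕ) (a : V → ι → ℝ) : Prop where
  small : ∀ (v : V) (i : ι), deg v ≤ N → |a v i| ≤ al q A η m M (deg v)
  free : ∀ (i : ι) (τ : T) (k : ℕ), 1 ≤ k → k ≤ N → 2 * k < D i τ →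
    ‖ps q pl p a i (lam par τ) k‖ ≤ Lm q A η M (c τ) k + Rm q A B κ m M k
  pol : ∀ (i : ι) (τ : T), D i τ ≤ 2 * N →
    ∃ b : ℂ[X], GE.Uni (D i τ) (ε i τ) b ∧ (∀ n : ℕ, 2 * n = D i τ → b.coeff n = 0) ∧
      GE.Newt (ps q pl p a i (lam par τ)) b N

end Pool.Agent.Q284.CT
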