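import Pool.Agent.Q284.CT.Gen
import Pool.Agent.Q284.GE.Ass
import Pool.Agent.Q198.GE.LFB

/-!
# Project CT: Euler products over abstract sets of places
-/

set_option autoImplicit false

open Finset Polynomial ComplexConjugate

namespace Pool.Agent.Q284.CT

open Pool.Agent.Q284.GE (Uni Newt newt_unique)

/-- sums over the places -/
theorem summable_deg {V : Type} {q A : ℝ} {deg : V → ℕ} {pl : ℕ → Finset V} (hq : 2 ≤ q) (hA : 1 ≤ A)
    (hpl : Places q A deg pl) {r : ℝ} (hr : 0 ≤ r) (hqr : q * r < 1) : Summable (fun v : V => r ^ deg v) := by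
  classical
  have hq0 : 0 < q := by linarith
  have hqr0 : 0 ≤ q * r := by positivity
  have hgeo := summable_geometric_of_lt_one hqr0 hqr
  apply summable_of_sum_le (c := A * ∑' k : ℕ, (q * r) ^ k) (fun v => by positivity)
  intro u
  have h1 : ∑ v ∈ u, r ^ deg v ≤ ∑ k ∈ u.image deg, ((pl k).card : ℝ) * r ^ k := by
    calc ∑ v ∈ u, r ^ deg v = ∑ k ∈ u.image deg, ∑ v ∈ u with deg v = k, r ^ deg v := by
          rw [sum_fiberwise_of_maps_to (fun v hv => mem_image_of_mem deg hv)]
      _ ≤ ∑ k ∈ u.image deg, ((pl k).card : ℝ) * r ^ k := by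
          apply sum_le_sum
          intro k _
          calc ∑ v ∈ u with deg v = k, r ^ deg v = ∑ v ∈ u with deg v = k, r ^ k := by
                apply sum_congr rfl
                intro v hv
                rw [(mem_filter.1 hv).2]
            _ = ((u.filter (fun v => deg v = k)).card : ℝ) * r ^ k := by rw [sum_const, nsmul_eq_mul]
            _ ≤ ((pl k).card : ℝ) * r ^ k := by
                apply mul_le_mul_of_nonneg_right _ (by positivity)
                have : (u.filter (fun v => deg v = k)).card ≤ (pl k).card := by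
                  apply card_le_card
                  intro v hv
                  exact (hpl.mem v k).2 (mem_filter.1 hv).2
                exact_mod_cast this
  refine h1.trans ?_
  calc ∑ k ∈ u.image deg, ((pl k).card : ℝ) * r ^ k ≤ ∑ k ∈ u.image deg, A * (q * r) ^ k := by
        apply sum_le_sum
        intro k hk
        obtain ⟨v, _, hv⟩ := mem_image.1 hk
        have hk1 : 1 ≤ k := hv ▸ hpl.pos v
        have hkR : (1 : ℝ) ≤ k := by exact_mod_cast hk1
        have h2 : ((pl k).card : ℝ) ≤ A * q ^ k := by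
          refine le_trans ?_ (hpl.card k)
          have : (0 : ℝ) ≤ (pl k).card := Nat.cast_nonneg _
          nlinarith
        calc ((pl k).card : ℝ) * r ^ k ≤ (A * q ^ k) * r ^ k := mul_le_mul_of_nonneg_right h2 (by positivity)
          _ = A * (q * r) ^ k := by
            rw [mul_pow]
            ring
    _ = A * ∑ k ∈ u.image deg, (q * r) ^ k := by rw [mul_sum]
    _ ≤ A * ∑' k : ℕ, (q * r) ^ k := by
        apply mul_le_mul_of_nonneg_left _ (by linarith)
        exact hgeo.sum_le_tsum _ (fun k _ => by positivity)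

/-- the logarithm of the polynomial -/
theorem exp_pol {D : ℕ} {ε : ℂ} {b : ℂ[X]} {s : ℕ → ℂ} (hb : Uni D ε b) (hs : ∀ N : ℕ, Newt s b N) {z : ℂ}
    (hz : ‖z‖ < 1) : ∃ Λ : ℂ, HasSum (fun n : ℕ => s n * z ^ n / n) Λ ∧ Complex.exp Λ = b.eval z := by
  obtain ⟨ζ, hζ, hbζ⟩ := Pool.Agent.Q96.GE.factor D b hb.deg hb.zero hb.root
  have hN : ∀ n : ℕ, 1 ≤ n → s n = - ∑ j, ζ j ^ n := by
    intro n hn
    exact newt_unique hb.zero (hs n) (fun k hk _ => Pool.Agent.Q198.GE.newt ζ hbζ hk) n hn le_rfl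
  have hlt : ∀ j, ‖ζ j * z‖ < 1 := fun j => by rw [norm_mul, hζ, one_mul]; exact hz
  refine ⟨∑ j, - (- Complex.log (1 - ζ j * z)), ?_, ?_⟩
  · have h1 := hasSum_sum (s := univ) (fun j (_ : j ∈ (univ : Finset (Fin D))) =>
      (Complex.hasSum_taylorSeries_neg_log (hlt j)).neg)
    refine (congrArg (fun f => HasSum f (∑ j, - (- Complex.log (1 - ζ j * z)))) ?_).mp h1
    funext n
    rcases Nat.eq_zero_or_pos n with rfl | hn
    · simp
    · rw [hN n hn, sum_neg_distrib, neg_mul, neg_div]
      congr 1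
      rw [sum_mul, sum_div]
      apply sum_congr rfl
      intro j _
      rw [mul_pow]
  · rw [Complex.exp_sum, hbζ, eval_prod]
    apply prod_congr rfl
    intro j _
    have h0 : 1 - ζ j * z ≠ 0 := by
      intro h
      have h1 := hlt j
      rw [← sub_eq_zero.1 h, norm_one] at h1
      exact lt_irrefl _ h1
    rw [neg_neg, Complex.exp_log h0]
    simp

/-- the local factor -/
theorem exp_loc {Y : Type} [Fintype Y] (γ : Y → ℂ) {w : ℂ} (h : ∀ y, ‖γ y * w‖ < 1) :
    ∃ Λ : ℂ, HasSum (fun k : ℕ => (∑ y, γ y ^ k) * w ^ k / k) Λ ∧ Complex.exp Λ = ∏ y, (1 - γ y * w)⁻¹ := by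
  refine ⟨∑ y, - Complex.log (1 - γ y * w), ?_, ?_⟩
  · have h1 := hasSum_sum (s := univ) (fun y (_ : y ∈ (univ : Finset Y)) =>
      (Complex.hasSum_taylorSeries_neg_log (h y)))
    refine (congrArg (fun f => HasSum f (∑ y, - Complex.log (1 - γ y * w))) ?_).mp h1
    funext k
    rw [sum_mul, sum_div]
    apply sum_congr rfl
    intro y _
    rw [mul_pow]
  · rw [Complex.exp_sum]
    apply prod_congr rfl
    intro y _
    have h0 : 1 - γ y * w ≠ 0 := by
      intro h'
      have h1 := h y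
      rw [← sub_eq_zero.1 h', norm_one] at h1
      exact lt_irrefl _ h1
    rw [Complex.exp_neg, Complex.exp_log h0]

/-- the rearrangement by degrees -/
theorem rearr {V : Type} {q A : ℝ} {deg : V → ℕ} {pl : ℕ → Finset V} (hq : 2 ≤ q) (hA : 1 ≤ A)
    (hpl : Places q A deg pl) {u : V → ℕ → ℂ} {C δ ϑ σ : ℝ} (hC : 0 ≤ C) (hσ1 : 1 - δ < σ) (hσ2 : 1 / 2 + ϑ < σ)
    (hu1 : ∀ v, ‖u v 1‖ ≤ C * q ^ (-(δ * deg v)))
    (hu : ∀ v k, 1 ≤ k → ‖u v k‖ ≤ C * q ^ (ϑ * (k * deg v))) {z : ℂ} (hz : ‖z‖ = q ^ (-σ)) :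
    ∃ S : ℂ, HasSum (fun v : V => ∑' k : ℕ, u v k * (z ^ deg v) ^ k / k) S ∧
      HasSum (fun n : ℕ => (∑ d ∈ n.divisors, ∑ v ∈ pl d, (d : ℂ) * u v (n / d)) * z ^ n / n) S := by
  classical
  have hq0 : 0 < q := by linarith
  set r₁ : ℝ := q ^ (-(δ + σ)) with hr1
  set ρ : ℝ := q ^ (ϑ - σ) with hρ
  have hr10 : 0 < r₁ := by positivity
  have hρ0 : 0 < ρ := by positivity
  have hr11 : q * r₁ < 1 := by
    have : q * r₁ = q ^ (1 - δ - σ) := by
      rw [hr1]
      nth_rewrite 1 [← Real.rpow_one q]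
      rw [← Real.rpow_add hq0]
      congr 1
      ring
    rw [this]
    exact Real.rpow_lt_one_of_one_lt_of_neg (by linarith) (by linarith)
  have hρ1 : ρ < 1 := Real.rpow_lt_one_of_one_lt_of_neg (by linarith) (by linarith)
  have hρ2 : q * ρ ^ 2 < 1 := by
    have : q * ρ ^ 2 = q ^ (1 + 2 * (ϑ - σ)) := by
      rw [hρ, ← Real.rpow_natCast, ← Real.rpow_mul hq0.le]
      nth_rewrite 1 [← Real.rpow_one q]
      rw [← Real.rpow_add hq0]
      congr 1
      push_cast
      ring
    rw [this]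
    exact Real.rpow_lt_one_of_one_lt_of_neg (by linarith) (by linarith)
  have s1 := summable_deg hq hA hpl hr10.le hr11
  have s2 := summable_deg hq hA hpl (sq_nonneg ρ) hρ2
  have s3 : Summable (fun k : ℕ => if k = 1 then (1 : ℝ) else 0) :=
    summable_of_ne_finset_zero (s := {1}) (fun k hk => by
      rw [mem_singleton] at hk
      rw [if_neg hk])
  have s4 : Summable (fun k : ℕ => ρ ^ (k - 2)) := by
    rw [← summable_nat_add_iff 2]
    exact summable_geometric_of_lt_one hρ0.le hρ1
  have m1 : Summable (fun x : V × ℕ => r₁ ^ deg x.1 * (if x.2 = 1 then (1 : ℝ) else 0)) :=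
    s1.mul_of_nonneg s3 (fun v => by positivity) (fun k => by
      show (0 : ℝ) ≤ if k = 1 then (1 : ℝ) else 0
      split_ifs <;> norm_num)
  have m2 : Summable (fun x : V × ℕ => (ρ ^ 2) ^ deg x.1 * ρ ^ (x.2 - 2)) :=
    s2.mul_of_nonneg s4 (fun v => by positivity) (fun k => by positivity)
  set f : V × ℕ → ℂ := fun x => u x.1 x.2 * (z ^ deg x.1) ^ x.2 / x.2 with hf
  have hzn : ∀ (v : V) (k : ℕ), ‖(z ^ deg v) ^ k‖ = q ^ (-(σ * (k * deg v))) := by
    intro v k
    rw [norm_pow, norm_pow, hz, ← pow_mul, ← Real.rpow_natCast, ← Real.rpow_mul hq0.le]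
    congr 1
    push_cast
    ring
  have hfs : Summable (fun x => ‖f x‖) := by
    refine Summable.of_nonneg_of_le (fun _ => norm_nonneg _) (fun x => ?_) ((m1.mul_left C).add (m2.mul_left C))
    obtain ⟨v, k⟩ := x
    show ‖u v k * (z ^ deg v) ^ k / k‖ ≤ C * (r₁ ^ deg v * (if k = 1 then (1 : ℝ) else 0)) +
      C * ((ρ ^ 2) ^ deg v * ρ ^ (k - 2))
    have hpos2 : 0 ≤ C * ((ρ ^ 2) ^ deg v * ρ ^ (k - 2)) := by positivity
    rcases Nat.lt_trichotomy k 1 with hk | hk | hk
    · have hk0 : k = 0 := by omega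
      subst hk0
      simp only [Nat.cast_zero, div_zero, norm_zero]
      have : (0 : ℝ) ≤ C * (r₁ ^ deg v * (if (0 : ℕ) = 1 then (1 : ℝ) else 0)) := by simp
      linarith
    · subst hk
      rw [if_pos rfl, mul_one, norm_div, norm_mul, hzn]
      have h1 : ‖u v 1‖ * q ^ (-(σ * ((1 : ℕ) * deg v))) ≤ C * r₁ ^ deg v := by
        calc ‖u v 1‖ * q ^ (-(σ * ((1 : ℕ) * deg v))) ≤ C * q ^ (-(δ * deg v)) * q ^ (-(σ * ((1 : ℕ) * deg v))) :=
              mul_le_mul_of_nonneg_right (hu1 v) (by positivity)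
          _ = C * r₁ ^ deg v := by
              rw [hr1, ← Real.rpow_natCast, ← Real.rpow_mul hq0.le, mul_assoc, ← Real.rpow_add hq0]
              congr 2
              push_cast
              ring
      simp only [Nat.cast_one, norm_one, div_one]
      simp only [Nat.cast_one] at h1
      linarith
    · have hkR : (1 : ℝ) ≤ k := by exact_mod_cast hk.le
      rw [if_neg (by omega), mul_zero, mul_zero, zero_add, norm_div, norm_mul, hzn, Complex.norm_natCast]
      have h1 : ‖u v k‖ * q ^ (-(σ * (k * deg v))) ≤ C * ρ ^ (k * deg v) := by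
        calc ‖u v k‖ * q ^ (-(σ * (k * deg v))) ≤ C * q ^ (ϑ * (k * deg v)) * q ^ (-(σ * (k * deg v))) :=
              mul_le_mul_of_nonneg_right (hu v k hk.le) (by positivity)
          _ = C * ρ ^ (k * deg v) := by
              rw [hρ, ← Real.rpow_natCast, ← Real.rpow_mul hq0.le, mul_assoc, ← Real.rpow_add hq0]
              congr 2
              push_cast
              ring
      have h2 : ρ ^ (k * deg v) ≤ (ρ ^ 2) ^ deg v * ρ ^ (k - 2) := by
        rw [← pow_mul, ← pow_add]
        apply pow_le_pow_of_le_one hρ0.le hρ1.le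
        have hd := hpl.pos v
        obtain ⟨j, rfl⟩ : ∃ j, k = j + 2 := ⟨k - 2, by omega⟩
        have : j ≤ j * deg v := Nat.le_mul_of_pos_right j hd
        have e : (j + 2) * deg v = j * deg v + 2 * deg v := by ring
        rw [e]
        omega
      calc ‖u v k‖ * q ^ (-(σ * (k * deg v))) / k ≤ ‖u v k‖ * q ^ (-(σ * (k * deg v))) :=
            div_le_self (by positivity) hkR
        _ ≤ C * ρ ^ (k * deg v) := h1
        _ ≤ C * ((ρ ^ 2) ^ deg v * ρ ^ (k - 2)) := mul_le_mul_of_nonneg_left h2 hC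
  have hfsum : Summable f := hfs.of_norm
  obtain ⟨S, hS⟩ := hfsum
  refine ⟨S, ?_, ?_⟩
  · exact hS.prod_fiberwise (fun v => (hS.summable.prod_factor v).hasSum)
  · have h1 := hS.tsum_fiberwise (fun x : V × ℕ => x.2 * deg x.1)
    refine (congrArg (fun f => HasSum f S) ?_).mp h1
    funext n
    rw [tsum_subtype ((fun x : V × ℕ => x.2 * deg x.1) ⁻¹' {n}) f]
    rcases Nat.eq_zero_or_pos n with rfl | hn
    · rw [Nat.divisors_zero, sum_empty, zero_mul, zero_div]
      rw [show (Set.indicator ((fun x : V × ℕ => x.2 * deg x.1) ⁻¹' {0}) f) = fun _ => 0 from ?_, tsum_zero]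
      funext x
      by_cases hx : x ∈ (fun x : V × ℕ => x.2 * deg x.1) ⁻¹' {0}
      · rw [Set.indicator_of_mem hx]
        have h2 : x.2 * deg x.1 = 0 := hx
        have h3 : x.2 = 0 := by
          rcases Nat.mul_eq_zero.1 h2 with h | h
          · exact h
          · have := hpl.pos x.1
            omega
        show u x.1 x.2 * (z ^ deg x.1) ^ x.2 / x.2 = 0
        rw [h3]
        simp
      · rw [Set.indicator_of_notMem hx]
    · set T : Finset (V × ℕ) := (n.divisors.sigma pl).image (fun x => (x.2, n / x.1)) with hT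
      have hmemT : ∀ x : V × ℕ, x ∈ T ↔ x.2 * deg x.1 = n := by
        intro x
        rw [hT, mem_image]
        constructor
        · rintro ⟨⟨d, v⟩, h2, h3⟩
          rw [mem_sigma] at h2
          rw [← h3]
          show n / d * deg v = n
          rw [(hpl.mem v d).1 h2.2, Nat.div_mul_cancel (Nat.dvd_of_mem_divisors h2.1)]
        · intro h2
          have hd := hpl.pos x.1
          refine ⟨⟨deg x.1, x.1⟩, ?_, ?_⟩
          · rw [mem_sigma]
            exact ⟨Nat.mem_divisors.2 ⟨⟨x.2, by rw [← h2]; ring⟩, hn.ne'⟩, (hpl.mem _ _).2 rfl⟩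
          · show (x.1, n / deg x.1) = x
            rw [← h2, Nat.mul_div_cancel _ hd]
      rw [tsum_eq_sum (s := T) (fun x hx => by
        rw [Set.indicator_of_notMem]
        intro h2
        exact hx ((hmemT x).2 h2))]
      have h2 : ∑ x ∈ T, Set.indicator ((fun x : V × ℕ => x.2 * deg x.1) ⁻¹' {n}) f x = ∑ x ∈ T, f x := by
        apply sum_congr rfl
        intro x hx
        rw [Set.indicator_of_mem]
        exact (hmemT x).1 hx
      rw [h2, hT, sum_image (by
        rintro ⟨d, v⟩ hx ⟨d', v'⟩ hx' he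
        have hx1 := (hpl.mem _ _).1 (mem_sigma.1 hx).2
        have hx2 := (hpl.mem _ _).1 (mem_sigma.1 hx').2
        simp only [Prod.mk.injEq] at he
        obtain ⟨he1, _⟩ := he
        simp only at hx1 hx2
        subst he1
        rw [hx1] at hx2
        subst hx2
        rfl), sum_sigma]
      rw [sum_mul, sum_div]
      apply sum_congr rfl
      intro d hd
      rw [sum_mul, sum_div]
      apply sum_congr rfl
      intro v hv
      have hdv := (hpl.mem v d).1 hv
      have hdn := Nat.dvd_of_mem_divisors hd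
      have hd0 : 0 < d := Nat.pos_of_mem_divisors hd
      show u v (n / d) * (z ^ deg v) ^ (n / d) / ((n / d : ℕ) : ℂ) = _
      rw [hdv, ← pow_mul, Nat.mul_div_cancel' hdn]
      have hnd : (n : ℂ) = (d : ℂ) * ((n / d : ℕ) : ℂ) := by
        exact_mod_cast (Nat.mul_div_cancel' hdn).symm
      have hd0C : (d : ℂ) ≠ 0 := by exact_mod_cast hd0.ne'
      have hk0C : ((n / d : ℕ) : ℂ) ≠ 0 := by
        have : 0 < n / d := Nat.div_pos (Nat.le_of_dvd hn hdn) hd0
        exact_mod_cast this.ne'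
      rw [hnd]
      field_simp

end Pool.Agent.Q284.CT
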