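import Pool.Agent.Q284.CT.Defs
import Pool.Agent.Q284.GE.Stm
import Pool.Agent.Q284.PX.Gen

/-!
# Project CT: definitions for the final statements
-/

set_option autoImplicit false

open Finset Polynomial ComplexConjugate

namespace Pool.Agent.Q284.CT

open Pool.Agent.Q284.GE (esym)

section Defs

variable {V T : Type} {n m : ℕ}

/-- the Satake parameters `α v j` are unitary (`Π_v` is tempered) with product one (trivial central character) -/
def Tempered (α : V → Fin n → ℂ) : Prop := ∀ v : V, (∀ j, ‖α v j‖ = 1) ∧ ∏ j, α v j = 1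

/-- the sets of the Satake parameters are closed under complex conjugation (`Π_v` is self-dual) -/
def SelfDual (α : V → Fin n → ℂ) : Prop :=
  ∀ (v : V) (w : ℂ), ∏ j, (1 - conj (α v j) * w) = ∏ j, (1 - α v j * w)

/-- the Rankin-Selberg Euler product of `Π` with its dual, without the places outside `V`, converges absolutely -/
def RankinSelbergConverges (q : ℕ) (deg : V → ℕ) (α : V → Fin n → ℂ) (s : ℂ) : Prop :=
  Summable (fun v : V => ‖(∏ i, ∏ j, (1 - α v i * conj (α v j) * (q : ℂ) ^ (-s * deg v))⁻¹) - 1‖)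

/-- the local factor at `v` of `L(s, Λ^k Π × τ)` -/
noncomputable def twistFactor (q : ℕ) (deg : V → ℕ) (k : ℕ) (α : V → Fin n → ℂ) (β : V → Fin m → ℂ) (s : ℂ)
    (v : V) : ℂ :=
  ∏ S ∈ powersetCard k (univ : Finset (Fin n)), ∏ j, (1 - (∏ i ∈ S, α v i) * β v j * (q : ℂ) ^ (-s * deg v))⁻¹

end Defs

end Pool.Agent.Q284.CT
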