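import Pool.Agent.Q284.CT.Step

/-!
# Project CT: the engine
-/

set_option autoImplicit false

open Finset Polynomial ComplexConjugate

namespace Pool.Agent.Q284.CT

open Pool.Agent.Q284.GE (Uni Newt uni_unique newt_unique uni_conj newt_conj newt_congr)

section Step

variable {V T ι : Type} {m : ℕ} {q r₀ A B b ϑ : ℝ} {K M : ℕ} {deg : V → ℕ} {pl : ℕ → Finset V}
  {par : T → V → Fin m → ℂ} {dual : T → T} {per c : T → ℕ} {p : ι → V → (ι → ℝ) → ℕ → ℝ}
  {D : ι → T → ℕ} {ε : ι → T → ℂ}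

theorem inv_congr {η κ : ℝ} (hpl : Places q A deg pl) {N : ℕ} {a a' : V → ι → ℝ}
    (h : ∀ v : V, deg v ≤ N → a v = a' v) (hi : Inv ι q A B η κ M deg pl par c D ε p N a) :
    Inv ι q A B η κ M deg pl par c D ε p N a' := by
  refine ⟨?_, ?_, ?_⟩
  · intro v i hv
    rw [← h v hv]
    exact hi.small v i hv
  · intro i τ k h1 h2 h3
    rw [← ps_congr hpl h i _ h1 h2]
    exact hi.free i τ k h1 h2 h3
  · intro i τ h1
    obtain ⟨b', h3, h4, h5⟩ := hi.pol i τ h1
    exact ⟨b', h3, h4, newt_congr h5 (fun k hk1 hk2 => ps_congr hpl h i _ hk1 hk2)⟩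

theorem step (hq : 2 ≤ q) (hP : Par r₀ A B b ϑ K) (hpl : Places q A deg pl)
    (hF : Family q A b M deg pl par dual per c) (hp : Loc ι q r₀ B ϑ K deg p)
    (hnum : Num q r₀ A B b (eta b) (kap b ϑ K) m M) (hdat : Dat ι dual per c D ε) {N : ℕ} {a : V → ι → ℝ}
    (hinv : Inv ι q A B (eta b) (kap b ϑ K) M deg pl par c D ε p N a) :
    ∃ a' : V → ι → ℝ, (∀ v : V, deg v ≤ N → a v = a' v) ∧
      Inv ι q A B (eta b) (kap b ϑ K) M deg pl par c D ε p (N + 1) a' := by
  classical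
  have hq0 : 0 < q := by linarith
  have hsq : 0 < Real.sqrt q := Real.sqrt_pos.2 hq0
  have hsqc : (Real.sqrt q : ℂ) ^ (N + 1) ≠ 0 := by
    apply pow_ne_zero
    exact_mod_cast hsq.ne'
  choose x hx1 hx2 hx3 using fun i => step_one hq hP hpl hF hp hnum hdat hinv i
  let a' : V → ι → ℝ := fun v i => if deg v = N + 1 then x i v else a v i
  have hlow : ∀ v : V, deg v ≤ N → a v = a' v := by
    intro v hv
    funext i
    show a v i = if deg v = N + 1 then x i v else a v i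
    rw [if_neg (by omega)]
  have htop : ∀ v : V, deg v = N + 1 → ∀ i, a' v i = x i v := by
    intro v hv i
    show (if deg v = N + 1 then x i v else a v i) = x i v
    rw [if_pos hv]
  have hall : ∀ j : ℕ, 1 ≤ j → al q A (eta b) m M j ≤ r₀ := fun j hj => al_le hq hP hnum hj
  have hone : ∀ i : ι, ∀ v ∈ pl (N + 1), p i v (a' v) 1 = a' v i := by
    intro i v hv
    have hd := (hpl.mem v _).1 hv
    apply hp.one i v (a' v)
    intro i'
    rw [htop v hd i']
    exact (hx1 i' v).trans (hall _ (by omega))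
  have hsum : ∀ (i : ι) (τ : T), ∑ v ∈ pl (N + 1), (a' v i : ℂ) * lam par τ v 1 =
      ∑ v ∈ pl (N + 1), (x i v : ℂ) * lam par τ v 1 := by
    intro i τ
    apply sum_congr rfl
    intro v hv
    rw [htop v ((hpl.mem v _).1 hv) i]
  have hpw : ∀ (i : ι) (τ : T), pw pl p a i (lam par τ) (N + 1) = pw pl p a' i (lam par τ) (N + 1) := fun i τ =>
    pw_congr hpl (fun v hv => hlow v (by omega)) i _
  have hsplit : ∀ (i : ι) (τ : T), ps q pl p a' i (lam par τ) (N + 1) * (Real.sqrt q : ℂ) ^ (N + 1) =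
      ((N + 1 : ℕ) : ℂ) * ∑ v ∈ pl (N + 1), (x i v : ℂ) * lam par τ v 1 + pw pl p a i (lam par τ) (N + 1) := by
    intro i τ
    rw [ps_split hq (by omega) (hone i), hsum, hpw]
  refine ⟨a', hlow, ?_, ?_, ?_⟩
  · intro v i hv
    rcases Nat.lt_or_ge N (deg v) with h4 | h4
    · have h5 : deg v = N + 1 := by omega
      rw [htop v h5 i, h5]
      exact hx1 i v
    · rw [← hlow v h4]
      exact hinv.small v i h4
  · intro i τ k h2 h3 h4
    rcases Nat.lt_or_ge N k with h5 | h5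
    · have h6 : k = N + 1 := by omega
      subst h6
      have h7 : ‖ps q pl p a' i (lam par τ) (N + 1)‖ * Real.sqrt q ^ (N + 1) ≤
          (Lm q A (eta b) M (c τ) (N + 1) + Rm q A B (kap b ϑ K) m M (N + 1)) * Real.sqrt q ^ (N + 1) := by
        have h8 : ‖ps q pl p a' i (lam par τ) (N + 1) * (Real.sqrt q : ℂ) ^ (N + 1)‖ =
            ‖ps q pl p a' i (lam par τ) (N + 1)‖ * Real.sqrt q ^ (N + 1) := by
          rw [norm_mul, norm_pow, Complex.norm_real, Real.norm_eq_abs, abs_of_pos hsq]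
        rw [← h8, hsplit]
        refine (norm_add_le _ _).trans ?_
        have h9 := hx2 i τ h4
        have h10 := rpw hq hP hpl hF hp hall (k := N + 1) (by omega)
          (fun v i' hv => hinv.small v i' (by omega)) i τ
        rw [add_mul]
        exact add_le_add h9 h10
      exact le_of_mul_le_mul_right h7 (by positivity)
    · rw [← ps_congr hpl hlow i _ h2 h5]
      exact hinv.free i τ k h2 h5 h4
  · intro i τ h2
    obtain ⟨b', h3, h4, s, h5, h6, h7⟩ := hx3 i τ h2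
    refine ⟨b', h3, h4, newt_congr h5 ?_⟩
    intro k hk1 hk2
    rcases Nat.lt_or_ge N k with h8 | h8
    · have h9 : k = N + 1 := by omega
      subst h9
      apply mul_right_cancel₀ hsqc
      rw [← h7, hsplit]
    · rw [h6 k hk1 h8, ps_congr hpl hlow i _ hk1 h8]

end Step

/-- **The engine**: all the twisted `L`-polynomials have the prescribed degrees and root numbers, and all their zeros
are on the unit circle -/
theorem gen (r₀ A B b ϑ : ℝ) (K m : ℕ) (hP : Par r₀ A B b ϑ K) : ∃ M₀ : ℕ,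
    ∀ (V T ι : Type) (q : ℝ) (M : ℕ) (deg : V → ℕ) (pl : ℕ → Finset V) (par : T → V → Fin m → ℂ) (dual : T → T)
      (per c : T → ℕ) (p : ι → V → (ι → ℝ) → ℕ → ℝ) (D : ι → T → ℕ) (ε : ι → T → ℂ), 2 ≤ q → M₀ ≤ M →
      Places q A deg pl → Family q A b M deg pl par dual per c → Loc ι q r₀ B ϑ K deg p →
      Dat ι dual per c D ε →
      ∃ a : V → ι → ℝ, (∀ (v : V) (i : ι), |a v i| ≤ r₀ * q ^ (-(9 / 10 * eta b * deg v))) ∧
        ∀ (i : ι) (τ : T), ∃ b' : ℂ[X], Uni (D i τ) (ε i τ) b' ∧ ∀ N : ℕ, Newt (ps q pl p a i (lam par τ)) b' N := by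
  classical
  obtain ⟨M₀, hM₀⟩ := t_num r₀ A B b (kap b ϑ K) m hP.r0 hP.A1 hP.B0 hP.b0 hP.b1 (kap_pos hP) (kap_le1 b ϑ K)
  refine ⟨M₀, ?_⟩
  intro V T ι q M deg pl par dual per c p D ε hq hM hpl hF hp hdat
  have hnum := hM₀ M hM q hq
  have hpos : ∀ (i : ι) (τ : T), 1 ≤ D i τ := fun i τ => hnum.dp _ _ (hdat.deg i τ) (room hF τ)
  -- the beginning
  have h0 : Inv ι q A B (eta b) (kap b ϑ K) M deg pl par c D ε p 0 (fun _ _ => 0) := by
    refine ⟨?_, ?_, ?_⟩
    · intro v i hv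
      have := hpl.pos v
      omega
    · intro i τ k h1 h2 _
      omega
    · intro i τ h1
      have := hpos i τ
      omega
  -- the sequence
  let S : ℕ → Type := fun N => {a : V → ι → ℝ // Inv ι q A B (eta b) (kap b ϑ K) M deg pl par c D ε p N a}
  have hstep : ∀ (N : ℕ) (a : S N), ∃ a' : S (N + 1), ∀ v : V, deg v ≤ N → a.1 v = a'.1 v := by
    intro N a
    obtain ⟨a', h1, h2⟩ := step hq hP hpl hF hp hnum hdat a.2
    exact ⟨⟨a', h2⟩, h1⟩
  choose nxt hnxt using hstep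
  let Aq : (N : ℕ) → S N := fun N => Nat.rec (motive := S) ⟨fun _ _ => 0, h0⟩ (fun N a => nxt N a) N
  have hA : ∀ N : ℕ, ∀ v : V, deg v ≤ N → (Aq N).1 v = (Aq (N + 1)).1 v := fun N v hv => hnxt N (Aq N) v hv
  have hA2 : ∀ (N k : ℕ) (v : V), deg v ≤ N → (Aq N).1 v = (Aq (N + k)).1 v := by
    intro N k v hv
    induction k with
    | zero => rfl
    | succ k ih => rw [ih, ← Nat.add_assoc]; exact hA (N + k) v (by omega)
  let a : V → ι → ℝ := fun v => (Aq (deg v)).1 v
  have ha : ∀ (N : ℕ) (v : V), deg v ≤ N → (Aq N).1 v = a v := by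
    intro N v hv
    have := hA2 (deg v) (N - deg v) v le_rfl
    rw [Nat.add_sub_cancel' hv] at this
    exact this.symm
  have hinv : ∀ N : ℕ, Inv ι q A B (eta b) (kap b ϑ K) M deg pl par c D ε p N a := fun N =>
    inv_congr hpl (fun v hv => ha N v hv) (Aq N).2
  refine ⟨a, ?_, ?_⟩
  · intro v i
    exact ((hinv (deg v)).small v i le_rfl).trans (hnum.sm _ (hpl.pos v))
  · intro i τ
    obtain ⟨b', hb1, hb2, hb3⟩ := (hinv (D i τ)).pol i τ (by omega)
    refine ⟨b', hb1, ?_⟩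
    intro N
    obtain ⟨b'', hb1', hb2', hb3'⟩ := (hinv (N + D i τ)).pol i τ (by omega)
    have e : b' = b'' := by
      refine uni_unique (s := ps q pl p a i (lam par τ)) hb1 hb1' hb2 hb2' ?_ ?_
      · intro n h1 h2
        exact hb3 n h1 (by omega)
      · intro n h1 h2
        exact hb3' n h1 (by omega)
    rw [e]
    intro n h1 h2
    exact hb3' n h1 (by omega)

end Pool.Agent.Q284.CT
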