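import Pool.Agent.Q284.CT.Defs
import Pool.Agent.Q208.GE.GSL

/-!
# Project CT: the diagonally dominant system with a real solution
-/

set_option autoImplicit false

open Finset Polynomial ComplexConjugate

namespace Pool.Agent.Q284.CT

theorem lam_bd {V T : Type} {m : ℕ} {q A b : ℝ} {M : ℕ} {deg : V → ℕ} {pl : ℕ → Finset V}
    {par : T → V → Fin m → ℂ} {dual : T → T} {per c : T → ℕ} (hF : Family q A b M deg pl par dual per c)
    (τ : T) (v : V) (k : ℕ) : ‖lam par τ v k‖ ≤ m := by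
  unfold lam
  refine (norm_sum_le _ _).trans ?_
  calc ∑ i : Fin m, ‖par τ v i ^ k‖ ≤ ∑ _i : Fin m, (1 : ℝ) := by
        apply sum_le_sum
        intro i _
        rw [norm_pow]
        exact pow_le_one₀ (norm_nonneg _) (hF.bd τ v i)
    _ = m := by simp

theorem gsl {V T : Type} {m : ℕ} {q A b : ℝ} {M : ℕ} {deg : V → ℕ} {pl : ℕ → Finset V}
    {par : T → V → Fin m → ℂ} {dual : T → T} {per c : T → ℕ}
    (hq : 2 ≤ q) (hA : 1 ≤ A) (hF : Family q A b M deg pl par dual per c) {j : ℕ} (hj : 1 ≤ j) (C : Finset T)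
    (hC : ∀ τ ∈ C, c τ ≤ 2 * j ∧ per τ ∣ j ∧ dual τ ∈ C)
    (hbig : ((C.card : ℝ) + 1) * (A * (4 * j + 1) * Real.sqrt q ^ j) ≤ q ^ j / 2)
    {R : ℝ} (t : T → ℂ) (ht : ∀ τ ∈ C, ‖t τ‖ ≤ R ∧ t (dual τ) = conj (t τ)) :
    ∃ x : V → ℝ, (∀ τ ∈ C, ∑ v ∈ pl j, (x v : ℂ) * lam par τ v 1 = t τ) ∧
      (∀ v, |x v| ≤ C.card * m * (2 * j * R / q ^ j)) ∧
      ∀ τ, τ ∉ C → j * ‖∑ v ∈ pl j, (x v : ℂ) * lam par τ v 1‖ ≤
        C.card * (2 * j * R / q ^ j) * (A * (c τ + 2 * j + 1) * Real.sqrt q ^ j) := by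
  classical
  have hjR : (0 : ℝ) < j := by exact_mod_cast hj
  have hq0 : 0 < q := by linarith
  have hr : 0 < Real.sqrt q := Real.sqrt_pos.mpr hq0
  have hrj : 0 < Real.sqrt q ^ j := pow_pos hr j
  set r : ℝ := Real.sqrt q ^ j with hrdef
  have hqj : 0 < q ^ j := pow_pos hq0 j
  have hA0 : 0 < A := by linarith
  by_cases hCe : C = ∅
  · subst hCe
    refine ⟨fun _ => 0, by simp, by simp, ?_⟩
    intro τ _
    simp
  obtain ⟨χ₀, hχ₀⟩ := nonempty_iff_ne_empty.mpr hCe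
  have hT : 0 ≤ R := (norm_nonneg _).trans (ht χ₀ hχ₀).1
  have hp0 : 0 < q ^ j / (2 * j) := by positivity
  -- bound off the diagonal
  have hoff : ∀ χ ψ : T, χ ∈ C → ψ ∈ C → χ ≠ ψ →
      ‖∑ v ∈ pl j, lam par χ v 1 * conj (lam par ψ v 1)‖ ≤ (A * (4 * j + 1) * r) / j := by
    intro χ ψ hχ hψ hne
    have h := hF.orth χ ψ hne j hj
    rw [le_div_iff₀ hjR, mul_comm]
    refine h.trans ?_
    apply mul_le_mul_of_nonneg_right _ hrj.le
    apply mul_le_mul_of_nonneg_left _ hA0.le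
    have h1 : (c χ : ℝ) ≤ 2 * j := by exact_mod_cast (hC χ hχ).1
    have h2 : (c ψ : ℝ) ≤ 2 * j := by exact_mod_cast (hC ψ hψ).1
    linarith
  let G : Matrix C C ℂ := fun χ ψ => ∑ v ∈ pl j, lam par χ.1 v 1 * conj (lam par ψ.1 v 1)
  have hdiag : ∀ i : C, (q ^ j - A * (2 * j + 1) * r) / j ≤ ‖G i i‖ := by
    intro i
    have h1 : G i i = ((∑ v ∈ pl j, ‖lam par i.1 v 1‖ ^ 2 : ℝ) : ℂ) := by
      show ∑ v ∈ pl j, lam par i.1 v 1 * conj (lam par i.1 v 1) = _
      push_cast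
      apply sum_congr rfl
      intro v _
      rw [Complex.mul_conj, Complex.normSq_eq_norm_sq]
      push_cast
      rfl
    rw [h1, Complex.norm_real, Real.norm_of_nonneg (sum_nonneg (fun v _ => by positivity)), div_le_iff₀ hjR]
    have h2 := hF.norm i.1 j hj (hC i.1 i.2).2.1
    have h3 : A * (c i.1 + 1) * r ≤ A * (2 * j + 1) * r := by
      apply mul_le_mul_of_nonneg_right _ hrj.le
      apply mul_le_mul_of_nonneg_left _ hA0.le
      have h1 : (c i.1 : ℝ) ≤ 2 * j := by exact_mod_cast (hC i.1 i.2).1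
      linarith
    linarith
  have hdom : ∀ i : C, ∑ k ∈ univ.erase i, ‖G i k‖ + q ^ j / (2 * j) ≤ ‖G i i‖ := by
    intro i
    refine le_trans ?_ (hdiag i)
    have h2 : ∑ k ∈ univ.erase i, ‖G i k‖ ≤ (C.card : ℝ) * ((A * (4 * j + 1) * r) / j) := by
      calc ∑ k ∈ univ.erase i, ‖G i k‖ ≤ ∑ _k ∈ univ.erase i, (A * (4 * j + 1) * r) / j := by
            apply sum_le_sum
            intro k hk
            apply hoff i.1 k.1 i.2 k.2
            intro h
            exact (mem_erase.mp hk).1 (Subtype.ext h.symm)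
        _ = ((univ.erase i).card : ℝ) * ((A * (4 * j + 1) * r) / j) := by rw [sum_const, nsmul_eq_mul]
        _ ≤ _ := by
            apply mul_le_mul_of_nonneg_right _ (by positivity)
            have h3 : (univ.erase i).card ≤ (univ : Finset C).card := card_le_card (erase_subset _ _)
            rw [Finset.card_univ, Fintype.card_coe] at h3
            exact_mod_cast h3
    have h4 : A * (2 * j + 1) * r ≤ A * (4 * j + 1) * r := by
      apply mul_le_mul_of_nonneg_right _ hrj.le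
      apply mul_le_mul_of_nonneg_left _ hA0.le
      linarith
    have h5 : (C.card : ℝ) * (A * (4 * j + 1) * r) + q ^ j / 2 ≤ q ^ j - A * (2 * j + 1) * r := by
      linarith
    calc ∑ k ∈ univ.erase i, ‖G i k‖ + q ^ j / (2 * j) ≤
        (C.card : ℝ) * ((A * (4 * j + 1) * r) / j) + q ^ j / (2 * j) := by linarith
      _ = ((C.card : ℝ) * (A * (4 * j + 1) * r) + q ^ j / 2) / j := by
        field_simp
      _ ≤ (q ^ j - A * (2 * j + 1) * r) / j := div_le_div_of_nonneg_right h5 hjR.le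
  obtain ⟨s, hs1, hs2, hs3⟩ := Pool.Agent.Q208.GE.lin G (q ^ j / (2 * j)) hp0 hdom R hT (fun χ => t χ.1)
    (fun χ => (ht χ.1 χ.2).1)
  have hs2' : ∀ k, ‖s k‖ ≤ 2 * j * R / q ^ j := by
    intro k
    refine (hs2 k).trans (le_of_eq ?_)
    field_simp
  -- conjugation
  let cj : C → C := fun ψ => ⟨dual ψ.1, (hC ψ.1 ψ.2).2.2⟩
  have hcj : Function.Involutive cj := by
    intro ψ
    apply Subtype.ext
    exact hF.dual_dual ψ.1
  have hsum : ∀ f : C → ℂ, ∑ ψ, f (cj ψ) = ∑ ψ, f ψ := by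
    intro f
    exact Equiv.sum_comp hcj.toPerm f
  have hlc : ∀ (ψ : C) (v : V), lam par (cj ψ).1 v 1 = conj (lam par ψ.1 v 1) :=
    fun ψ v => hF.dual_lam ψ.1 v 1 le_rfl
  have hsym : (fun ψ => conj (s (cj ψ))) = s := by
    apply hs3
    intro χ
    have h1 : ∀ ψ : C, G χ ψ * conj (s (cj ψ)) = conj (G (cj χ) (cj ψ) * s (cj ψ)) := by
      intro ψ
      rw [map_mul]
      congr 1
      show ∑ v ∈ pl j, lam par χ.1 v 1 * conj (lam par ψ.1 v 1) =
        conj (∑ v ∈ pl j, lam par (cj χ).1 v 1 * conj (lam par (cj ψ).1 v 1))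
      rw [map_sum]
      apply sum_congr rfl
      intro v _
      rw [hlc, hlc, map_mul, Complex.conj_conj, Complex.conj_conj]
    calc ∑ ψ, G χ ψ * conj (s (cj ψ)) = ∑ ψ, conj (G (cj χ) (cj ψ) * s (cj ψ)) :=
          sum_congr rfl (fun ψ _ => h1 ψ)
      _ = conj (∑ ψ, G (cj χ) (cj ψ) * s (cj ψ)) := by rw [map_sum]
      _ = conj (∑ ψ, G (cj χ) ψ * s ψ) := by rw [hsum (fun ψ => G (cj χ) ψ * s ψ)]
      _ = conj (t (cj χ).1) := by rw [hs1]
      _ = t χ.1 := by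
          show conj (t (dual χ.1)) = t χ.1
          rw [(ht χ.1 χ.2).2, Complex.conj_conj]
  have hsym' : ∀ ψ : C, conj (s (cj ψ)) = s ψ := fun ψ => congrFun hsym ψ
  set Y : V → ℂ := fun v => ∑ ψ : C, s ψ * conj (lam par ψ.1 v 1) with hY
  have hreal : ∀ v, conj (Y v) = Y v := by
    intro v
    have h1 : conj (Y v) = ∑ ψ : C, conj (s ψ) * lam par ψ.1 v 1 := by
      rw [hY]
      simp only [map_sum, map_mul, Complex.conj_conj]
    have h2 : ∑ ψ : C, conj (s ψ) * lam par ψ.1 v 1 = ∑ ψ : C, conj (s (cj ψ)) * lam par (cj ψ).1 v 1 :=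
      (hsum (fun ψ => conj (s ψ) * lam par ψ.1 v 1)).symm
    rw [h1, h2]
    apply sum_congr rfl
    intro ψ _
    rw [hsym' ψ, hlc]
  have hre : ∀ v, (((Y v).re : ℝ) : ℂ) = Y v := fun v => Complex.conj_eq_iff_re.mp (hreal v)
  have hswap : ∀ τ : T, ∑ v ∈ pl j, (((Y v).re : ℝ) : ℂ) * lam par τ v 1 =
      ∑ ψ : C, s ψ * ∑ v ∈ pl j, lam par τ v 1 * conj (lam par ψ.1 v 1) := by
    intro τ
    calc ∑ v ∈ pl j, (((Y v).re : ℝ) : ℂ) * lam par τ v 1
        = ∑ v ∈ pl j, ∑ ψ : C, s ψ * conj (lam par ψ.1 v 1) * lam par τ v 1 := by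
          apply sum_congr rfl
          intro v _
          rw [hre v, hY, sum_mul]
      _ = ∑ ψ : C, ∑ v ∈ pl j, s ψ * conj (lam par ψ.1 v 1) * lam par τ v 1 := sum_comm
      _ = _ := by
          apply sum_congr rfl
          intro ψ _
          rw [mul_sum]
          apply sum_congr rfl
          intro v _
          ring
  refine ⟨fun v => (Y v).re, ?_, ?_, ?_⟩
  · intro χ hχ
    rw [hswap χ]
    have h := hs1 ⟨χ, hχ⟩
    calc ∑ ψ : C, s ψ * ∑ v ∈ pl j, lam par χ v 1 * conj (lam par ψ.1 v 1) = ∑ ψ : C, G ⟨χ, hχ⟩ ψ * s ψ := by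
          apply sum_congr rfl
          intro ψ _
          rw [mul_comm]
      _ = t χ := h
  · intro v
    refine (Complex.abs_re_le_norm _).trans ?_
    rw [hY]
    refine (norm_sum_le _ _).trans ?_
    calc ∑ ψ : C, ‖s ψ * conj (lam par ψ.1 v 1)‖ ≤ ∑ _ψ : C, 2 * j * R / q ^ j * m := by
          apply sum_le_sum
          intro ψ _
          rw [norm_mul, RCLike.norm_conj]
          exact mul_le_mul (hs2' ψ) (lam_bd hF ψ.1 v 1) (norm_nonneg _) (by positivity)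
      _ = (C.card : ℝ) * (2 * j * R / q ^ j * m) := by
          rw [sum_const, nsmul_eq_mul, Finset.card_univ, Fintype.card_coe]
      _ = _ := by ring
  · intro τ hτ
    rw [hswap τ]
    have h1 : ‖∑ ψ : C, s ψ * ∑ v ∈ pl j, lam par τ v 1 * conj (lam par ψ.1 v 1)‖ ≤
        ∑ _ψ : C, (2 * j * R / q ^ j) * ((A * (c τ + 2 * j + 1) * r) / j) := by
      refine (norm_sum_le _ _).trans ?_
      apply sum_le_sum
      intro ψ _
      rw [norm_mul]
      apply mul_le_mul (hs2' ψ) _ (norm_nonneg _) (by positivity)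
      have hne : τ ≠ ψ.1 := by
        intro h
        exact hτ (h ▸ ψ.2)
      have h := hF.orth τ ψ.1 hne j hj
      rw [le_div_iff₀ hjR, mul_comm]
      refine h.trans ?_
      apply mul_le_mul_of_nonneg_right _ hrj.le
      apply mul_le_mul_of_nonneg_left _ hA0.le
      have h2 : (c ψ.1 : ℝ) ≤ 2 * j := by exact_mod_cast (hC ψ.1 ψ.2).1
      linarith
    calc (j : ℝ) * ‖∑ ψ : C, s ψ * ∑ v ∈ pl j, lam par τ v 1 * conj (lam par ψ.1 v 1)‖
        ≤ j * ∑ _ψ : C, (2 * j * R / q ^ j) * ((A * (c τ + 2 * j + 1) * r) / j) :=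
          mul_le_mul_of_nonneg_left h1 hjR.le
      _ = j * ((C.card : ℝ) * ((2 * j * R / q ^ j) * ((A * (c τ + 2 * j + 1) * r) / j))) := by
          rw [sum_const, nsmul_eq_mul, Finset.card_univ, Fintype.card_coe]
      _ = _ := by
          field_simp

end Pool.Agent.Q284.CT
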