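import Pool.Agent.Q284.CT.FDefs
import Pool.Agent.Q284.GE.All

/-!
# Project CT: the primitive Hayes characters form a family
-/

set_option autoImplicit false

open Finset Polynomial ComplexConjugate

namespace Pool.Agent.Q284.CT

open Pool.Agent.Q284.PS (Prim Hay PD PI qq Place mem_PI norm_le_one)
open Pool.Agent.Q284.GE (two_le_qq prim_conj)

section

variable (F : Type) [Field F]

/-- the primitive Hayes characters `χ`, with their levels `(Q, l)` -/
def HChar : Type := {x : F[X] × ℕ × (F[X] → ℂ) // Prim x.1 x.2.1 x.2.2}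

variable {F}

/-- the values `χ(P)` at the places -/
def hpar (x : HChar F) (P : Place F) (_ : Fin 1) : ℂ := x.1.2.2 P.1

/-- the complex conjugate character -/
noncomputable def hdual (x : HChar F) : HChar F :=
  ⟨(x.1.1, x.1.2.1, fun f => conj (x.1.2.2 f)), prim_conj x.2⟩

/-- `ν` times (degree of the conductor of `χ` at the finite places `+ max M (l + 1) - 2`) -/
def hcond (ν M : ℕ) (x : HChar F) : ℕ := ν * (x.1.1.natDegree + max M (x.1.2.1 + 1) - 2)

open Classical in
/-- the places of degree `j` -/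
noncomputable def hpl (F : Type) [Field F] [Fintype F] (j : ℕ) : Finset (Place F) :=
  (PI F j).subtype (fun P => P.Monic ∧ Irreducible P)

/-- the degree of a place -/
noncomputable def hdeg (P : Place F) : ℕ := P.1.natDegree

variable [Fintype F]

theorem mem_hpl {j : ℕ} {P : Place F} : P ∈ hpl F j ↔ hdeg P = j := by
  classical
  unfold hpl hdeg
  rw [mem_subtype, mem_PI]
  constructor
  · rintro ⟨_, h, _⟩
    exact h
  · intro h
    exact ⟨P.2.1, h, P.2.2⟩

theorem sum_hpl {M : Type*} [AddCommMonoid M] (j : ℕ) (f : F[X] → M) :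
    ∑ P ∈ hpl F j, f P.1 = ∑ P ∈ PI F j, f P := by
  classical
  unfold hpl
  rw [sum_subtype_of_mem]
  intro P hP
  have := mem_PI.1 hP
  exact ⟨this.1, this.2.2⟩

theorem card_hpl (j : ℕ) : (hpl F j).card = (PI F j).card := by
  have h := sum_hpl (F := F) j (fun _ => 1)
  rw [sum_const, sum_const, smul_eq_mul, smul_eq_mul, mul_one, mul_one] at h
  exact h

theorem hplaces : Places (Fintype.card F : ℝ) 4 (hdeg (F := F)) (hpl F) := by
  refine ⟨fun P j => mem_hpl, fun P => P.2.2.natDegree_pos, ?_⟩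
  intro j
  rcases Nat.eq_zero_or_pos j with rfl | hj
  · simp
  · have h1 := (Pool.Agent.Q53.GE.t_PLB F j hj).1
    rw [card_hpl]
    have h2 : (j : ℝ) * (PI F j).card ≤ (Fintype.card F : ℝ) ^ j := by exact_mod_cast h1
    have h3 : (0 : ℝ) ≤ (Fintype.card F : ℝ) ^ j := by positivity
    linarith

omit [Fintype F] in
theorem hlam (x : HChar F) (P : Place F) (k : ℕ) : lam hpar x P k = x.1.2.2 P.1 ^ k := by
  unfold lam hpar
  simp

/-- the family of the primitive Hayes characters -/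
theorem hfamily {ν M : ℕ} (hν : 1 ≤ ν) (hM : 3 ≤ M) :
    Family (Fintype.card F : ℝ) 4 (2 / ν) (M - 3) (hdeg (F := F)) (hpl F) hpar hdual (fun _ => 1) (hcond ν M) := by
  classical
  have hHC := Pool.Agent.Q53.PS.t_HC
  have hCMON := Pool.Agent.Q53.PS.t_CMON
  have hVAN := Pool.Agent.Q166.PS.Van.t_VAN
  have hUNI := Pool.Agent.Q277.PS.t_UNI Pool.Agent.Q68.PS.t_CRT Pool.Agent.Q68.PS.t_ETA
  have hCNT := Pool.Agent.Q53.PS.t_CNT hHC hVAN hCMON
  have hWPR := Pool.Agent.Q53.GE.t_WPR Pool.Agent.Q284.WE.weil_hayes hUNI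
  have hq2 : 2 ≤ qq F := two_le_qq
  have hqq : (Fintype.card F : ℝ) = qq F := rfl
  have hq0 : 0 < qq F := by linarith
  have hq1 : 1 ≤ qq F := by linarith
  have hsq1 : ∀ j : ℕ, 1 ≤ Real.sqrt (qq F) ^ j := by
    intro j
    apply one_le_pow₀
    rw [← Real.sqrt_one]
    exact Real.sqrt_le_sqrt hq1
  have hc : ∀ x : HChar F, x.1.1.natDegree + x.1.2.1 ≤ hcond ν M x + 1 := by
    intro x
    unfold hcond
    have h1 : 1 * (x.1.1.natDegree + max M (x.1.2.1 + 1) - 2) ≤ ν * (x.1.1.natDegree + max M (x.1.2.1 + 1) - 2) :=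
      Nat.mul_le_mul_right _ hν
    have h2 := le_max_right M (x.1.2.1 + 1)
    omega
  refine ⟨?_, ?_, ?_, ?_, ?_, ?_, ?_, ?_, ?_, ?_⟩
  · intro x P _
    exact norm_le_one x.2.1 P.1
  · intro x P k _
    rw [hlam, hlam, map_pow]
    rfl
  · intro x
    apply Subtype.ext
    show (x.1.1, x.1.2.1, fun f => conj (conj (x.1.2.2 f))) = x.1
    have : (fun f => conj (conj (x.1.2.2 f))) = x.1.2.2 := by
      funext f
      exact Complex.conj_conj _
    rw [this]
  · intro x
    rfl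
  · intro x
    rfl
  · intro x
    exact le_rfl
  · intro x P k _ h
    exact absurd (one_dvd _) h
  · intro x j hj _
    have h1 := Pool.Agent.Q53.GE.split_sum (F := F) hj
    have h2 := (Pool.Agent.Q53.GE.t_PLB F j hj).2.2
    have h3 : (Pool.Agent.Q53.GE.S0 F j : ℝ) ≤ 2 * Real.sqrt (qq F) ^ j := by
      unfold Pool.Agent.Q53.GE.S0
      push_cast
      exact h2
    have h4 : qq F ^ j = (Pool.Agent.Q53.GE.S0 F j : ℝ) + j * (PI F j).card := by
      unfold qq
      exact_mod_cast h1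
    have h5 : ∑ P ∈ hpl F j, ‖lam hpar x P 1‖ ^ 2 = ∑ P ∈ PI F j, ‖x.1.2.2 P‖ ^ 2 := by
      rw [← sum_hpl]
      apply sum_congr rfl
      intro P _
      rw [hlam, pow_one]
    have h6 : ((PI F j).card : ℝ) ≤ ∑ P ∈ PI F j, ‖x.1.2.2 P‖ ^ 2 +
        ((PI F j).filter (fun P => x.1.2.2 P = 0)).card := by
      have h7 : ∀ P ∈ PI F j, (1 : ℝ) ≤ ‖x.1.2.2 P‖ ^ 2 + if x.1.2.2 P = 0 then 1 else 0 := by
        intro P hP
        have hm := mem_PI.1 hP
        by_cases h8 : x.1.2.2 P = 0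
        · rw [if_pos h8]
          have : 0 ≤ ‖x.1.2.2 P‖ ^ 2 := by positivity
          linarith
        · rw [if_neg h8]
          have h9 : IsCoprime P x.1.1 := by
            by_contra hc
            exact h8 (x.2.1.zero P hm.1 hc)
          rw [x.2.1.norm P hm.1 h9]
          norm_num
      calc ((PI F j).card : ℝ) = ∑ _P ∈ PI F j, (1 : ℝ) := by simp
        _ ≤ ∑ P ∈ PI F j, (‖x.1.2.2 P‖ ^ 2 + if x.1.2.2 P = 0 then 1 else 0) := sum_le_sum h7
        _ = _ := by
          rw [sum_add_distrib, ← sum_filter]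
          simp
    have h7 : (((PI F j).filter (fun P => x.1.2.2 P = 0)).card : ℝ) * j ≤ x.1.1.natDegree := by
      have := Pool.Agent.Q208.GE.card_bad x.2.1 j
      have h8 : ((PI F j).filter (fun P => x.1.2.2 P = 0)).card * j ≤ x.1.1.natDegree := by
        refine le_trans (le_of_eq ?_) this
        congr!
      exact_mod_cast h8
    rw [h5, hqq, h4]
    have h8 : (x.1.1.natDegree : ℝ) ≤ hcond ν M x + 1 := by
      have := hc x
      exact_mod_cast (by omega : x.1.1.natDegree ≤ hcond ν M x + 1)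
    have h9 := hsq1 j
    have hjR : (1 : ℝ) ≤ j := by exact_mod_cast hj
    have hc0 : (0 : ℝ) ≤ hcond ν M x := Nat.cast_nonneg _
    have h10 : (j : ℝ) * (PI F j).card ≤ j * ∑ P ∈ PI F j, ‖x.1.2.2 P‖ ^ 2 + x.1.1.natDegree := by
      have := mul_le_mul_of_nonneg_left h6 (by linarith : (0 : ℝ) ≤ j)
      linarith
    have h11 : (x.1.1.natDegree : ℝ) + 2 * Real.sqrt (qq F) ^ j ≤
        4 * (hcond ν M x + 1) * Real.sqrt (qq F) ^ j := by
      have h12 : (hcond ν M x + 1 : ℝ) * 1 ≤ (hcond ν M x + 1) * Real.sqrt (qq F) ^ j :=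
        mul_le_mul_of_nonneg_left h9 (by linarith)
      have h13 : 0 ≤ (hcond ν M x : ℝ) * Real.sqrt (qq F) ^ j := by positivity
      linarith
    linarith
  · intro x y hxy j hj
    have hne : x.1.2.2 ≠ y.1.2.2 := by
      intro h
      obtain ⟨h1, h2, h3⟩ := hUNI F x.1.1 y.1.1 x.1.2.1 y.1.2.1 x.1.2.2 y.1.2.2 x.2 y.2 (fun f _ _ _ => by rw [h])
      exact hxy (Subtype.ext (Prod.ext h1 (Prod.ext h2 h3)))
    have h := hWPR F x.1.1 y.1.1 x.1.2.1 y.1.2.1 x.1.2.2 y.1.2.2 x.2 y.2 hne j hj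
    have h5 : ∑ P ∈ hpl F j, lam hpar x P 1 * conj (lam hpar y P 1) =
        ∑ P ∈ PI F j, x.1.2.2 P * conj (y.1.2.2 P) := by
      rw [← sum_hpl]
      apply sum_congr rfl
      intro P _
      rw [hlam, hlam, pow_one, pow_one]
    rw [h5, mul_comm, hqq]
    refine h.trans ?_
    apply mul_le_mul_of_nonneg_right _ (by positivity)
    have h1 : (x.1.1.natDegree : ℝ) + x.1.2.1 ≤ hcond ν M x + 1 := by exact_mod_cast hc x
    have h2 : (y.1.1.natDegree : ℝ) + y.1.2.1 ≤ hcond ν M y + 1 := by exact_mod_cast hc y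
    have hc0 : (0 : ℝ) ≤ hcond ν M x := Nat.cast_nonneg _
    have hc1 : (0 : ℝ) ≤ hcond ν M y := Nat.cast_nonneg _
    linarith
  · intro N'
    set N : ℕ := N' / ν + 1 with hN
    obtain ⟨hfin, hcard⟩ := hCNT F (M - 1) N
    set S := {p : F[X] × ℕ × (F[X] → ℂ) | Prim p.1 p.2.1 p.2.2 ∧ p.1.natDegree + max (M - 1) p.2.1 ≤ N}
      with hS
    have hinj : Function.Injective (Subtype.val : HChar F → F[X] × ℕ × (F[X] → ℂ)) := Subtype.val_injective
    have hsub : (Subtype.val : HChar F → F[X] × ℕ × (F[X] → ℂ)) '' {x : HChar F | hcond ν M x ≤ N'} ⊆ S := by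
      rintro p ⟨x, hx, rfl⟩
      refine ⟨x.2, ?_⟩
      have hx' : ν * (x.1.1.natDegree + max M (x.1.2.1 + 1) - 2) ≤ N' := hx
      have h1 : x.1.1.natDegree + max M (x.1.2.1 + 1) - 2 ≤ N' / ν := by
        rw [Nat.le_div_iff_mul_le (by omega), mul_comm]
        exact hx'
      show x.1.1.natDegree + max (M - 1) x.1.2.1 ≤ N
      rw [hN]
      generalize N' / ν = K at *
      rcases le_total M (x.1.2.1 + 1) with h | h
      · rw [max_eq_right h] at h1
        rw [max_eq_right (by omega : M - 1 ≤ x.1.2.1)]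
        omega
      · rw [max_eq_left h] at h1
        rw [max_eq_left (by omega : x.1.2.1 ≤ M - 1)]
        omega
    have hfin2 : {x : HChar F | hcond ν M x ≤ N'}.Finite :=
      Set.Finite.of_finite_image (hfin.subset hsub) hinj.injOn
    refine ⟨hfin2, ?_⟩
    have h1 : ({x : HChar F | hcond ν M x ≤ N'}.ncard : ℝ) ≤ (S.ncard : ℝ) := by
      have h0 := Set.ncard_image_of_injective {x : HChar F | hcond ν M x ≤ N'} hinj
      rw [← h0]
      exact_mod_cast Set.ncard_le_ncard hsub hfin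
    refine h1.trans ?_
    have h2 : (S.ncard : ℝ) ≤ 4 * qq F ^ (2 * N) / qq F ^ (M - 1) := by
      rw [le_div_iff₀ (pow_pos hq0 _)]
      exact hcard
    refine h2.trans ?_
    rw [mul_div_assoc, hqq]
    apply mul_le_mul_of_nonneg_left _ (by norm_num)
    rw [← Real.rpow_natCast, ← Real.rpow_natCast, ← Real.rpow_sub hq0]
    apply Real.rpow_le_rpow_of_exponent_le hq1
    have h3 : ((N' / ν : ℕ) : ℝ) ≤ (N' : ℝ) / ν := Nat.cast_div_le
    rw [hN, Nat.cast_mul, Nat.cast_add, Nat.cast_sub (by omega : 1 ≤ M), Nat.cast_sub hM]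
    push_cast at h3 ⊢
    have h4 : 2 / (ν : ℝ) * N' = 2 * (N' / ν) := by ring
    rw [h4]
    linarith

end

end Pool.Agent.Q284.CT
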