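import Pool.Agent.Q284.CT.Defs

/-!
# Project CT: the numerical lemma
-/

set_option autoImplicit false

open Finset Filter Topology

namespace Pool.Agent.Q284.CT

theorem polyexp (k : ℕ) {δ : ℝ} (hδ : 0 < δ) :
    ∃ C : ℝ, 0 ≤ C ∧ ∀ j : ℕ, (j : ℝ) ^ k * (2 : ℝ) ^ (-(δ * j)) ≤ C := by
  have h1 : ‖(2 : ℝ) ^ (-δ)‖ < 1 := by
    rw [Real.norm_eq_abs, abs_of_pos (by positivity)]
    exact Real.rpow_lt_one_of_one_lt_of_neg (by norm_num) (by linarith)
  have h2 := summable_pow_mul_geometric_of_norm_lt_one (R := ℝ) k h1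
  refine ⟨∑' n : ℕ, (n : ℝ) ^ k * ((2 : ℝ) ^ (-δ)) ^ n, tsum_nonneg (fun n => by positivity), ?_⟩
  intro j
  have h3 : (2 : ℝ) ^ (-(δ * j)) = ((2 : ℝ) ^ (-δ)) ^ j := by
    rw [← Real.rpow_natCast, ← Real.rpow_mul (by norm_num)]
    congr 1
    ring
  rw [h3]
  exact h2.le_tsum j (fun n _ => by positivity)

theorem polysum (k : ℕ) {δ : ℝ} (hδ : 0 < δ) :
    ∃ C : ℝ, 0 ≤ C ∧ ∀ s : Finset ℕ, ∑ j ∈ s, (j : ℝ) ^ k * (2 : ℝ) ^ (-(δ * j)) ≤ C := by
  have h1 : ‖(2 : ℝ) ^ (-δ)‖ < 1 := by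
    rw [Real.norm_eq_abs, abs_of_pos (by positivity)]
    exact Real.rpow_lt_one_of_one_lt_of_neg (by norm_num) (by linarith)
  have h2 := summable_pow_mul_geometric_of_norm_lt_one (R := ℝ) k h1
  refine ⟨∑' n : ℕ, (n : ℝ) ^ k * ((2 : ℝ) ^ (-δ)) ^ n, tsum_nonneg (fun n => by positivity), ?_⟩
  intro s
  have h3 : ∀ j : ℕ, (2 : ℝ) ^ (-(δ * j)) = ((2 : ℝ) ^ (-δ)) ^ j := by
    intro j
    rw [← Real.rpow_natCast, ← Real.rpow_mul (by norm_num)]
    congr 1
    ring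
  calc ∑ j ∈ s, (j : ℝ) ^ k * (2 : ℝ) ^ (-(δ * j)) = ∑ j ∈ s, (j : ℝ) ^ k * ((2 : ℝ) ^ (-δ)) ^ j :=
        sum_congr rfl (fun j _ => by rw [h3])
    _ ≤ _ := h2.sum_le_tsum s (fun n _ => by positivity)

/-- powers of `q ≥ 2` with negative exponents -/
theorem neg_pow_le {q x y : ℝ} (hq : 2 ≤ q) (hy : 0 ≤ y) (hxy : y ≤ x) : q ^ (-x) ≤ (2 : ℝ) ^ (-y) := by
  calc q ^ (-x) ≤ q ^ (-y) := Real.rpow_le_rpow_of_exponent_le (by linarith) (by linarith)
    _ ≤ (2 : ℝ) ^ (-y) := by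
      rw [Real.rpow_neg (by linarith), Real.rpow_neg (by norm_num)]
      apply inv_anti₀ (by positivity)
      exact Real.rpow_le_rpow (by norm_num) hq hy

theorem negM {q : ℝ} (hq : 2 ≤ q) (M : ℕ) : q ^ (-(M : ℝ)) ≤ (1 / 2 : ℝ) ^ M := by
  refine (neg_pow_le hq (Nat.cast_nonneg M) le_rfl).trans (le_of_eq ?_)
  rw [Real.rpow_neg (by norm_num), Real.rpow_natCast, one_div, inv_pow]

theorem t_num (r₀ A B b κ : ℝ) (m : ℕ) (hr : 0 < r₀) (hA : 1 ≤ A) (hB : 0 ≤ B) (hb0 : 0 ≤ b) (hb : b < 1 / 4)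
    (hκ : 0 < κ) (hκη : κ ≤ eta b / 2) :
    ∃ M₀ : ℕ, ∀ M : ℕ, M₀ ≤ M → ∀ q : ℝ, 2 ≤ q → Num q r₀ A B b (eta b) κ m M := by
  have hη : 0 < eta b := by
    unfold eta
    linarith
  have hη2 : eta b ≤ 1 / 2 := by
    unfold eta
    linarith
  have hA0 : 0 < A := by linarith
  set η : ℝ := eta b with hηd
  obtain ⟨C1, hC1, h1⟩ := polyexp 1 (δ := η / 10) (by linarith)
  obtain ⟨C2, hC2, h2⟩ := polyexp 1 (δ := κ) hκ
  obtain ⟨C3, hC3, h3⟩ := polyexp 1 (δ := η) hη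
  obtain ⟨C4, hC4, h4⟩ := polyexp 1 (δ := 1 / 4) (by norm_num)
  obtain ⟨S0, hS0, s0⟩ := polysum 0 (δ := κ / 2) (by linarith)
  obtain ⟨S1, hS1, s1⟩ := polysum 1 (δ := κ / 2) (by linarith)
  have hρ2 : 1 < (2 : ℝ) ^ (κ / 2) := Real.one_lt_rpow (by norm_num) (by linarith)
  set Cρ : ℝ := Real.log ((2 : ℝ) ^ (κ / 2) / ((2 : ℝ) ^ (κ / 2) - 1)) with hCρd
  set E4 : ℝ := 12 * A ^ 2 * (2 * S0 + 2 * S1) + 10 * A ^ 2 * B * (m : ℝ) ^ 2 * S1 with hE4
  set E5 : ℝ := 2 * A * B * m * S0 + Cρ with hE5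
  have hl2 : 0 < Real.log 2 := Real.log_pos (by norm_num)
  have hW : Tendsto (fun M : ℕ => (1 / 2 : ℝ) ^ M) atTop (𝓝 0) :=
    tendsto_pow_atTop_nhds_zero_of_lt_one (by norm_num) (by norm_num)
  have hcW : ∀ c : ℝ, ∀ ε : ℝ, 0 < ε → ∀ᶠ M : ℕ in atTop, c * (1 / 2 : ℝ) ^ M ≤ ε := by
    intro c ε hε
    have h := hW.const_mul c
    rw [mul_zero] at h
    exact h.eventually_le_const hε
  have e1 := hcW (6 * m * A * C1) r₀ hr
  have e2 := hcW (5 * A ^ 2 * B * (m : ℝ) ^ 2 * C2) (1 / 2) (by norm_num)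
  have hpow : ∀ s : ℝ, 0 < s → ∀ c : ℝ, ∀ ε : ℝ, 0 < ε → ∀ᶠ M : ℕ in atTop, c * (A * (1 / 2 : ℝ) ^ M) ^ s ≤ ε := by
    intro s hs c ε hε
    have h := hW.const_mul A
    rw [mul_zero] at h
    have h' := h.rpow_const (p := s) (Or.inr hs.le)
    rw [Real.zero_rpow hs.ne'] at h'
    have h'' := h'.const_mul c
    rw [mul_zero] at h''
    exact h''.eventually_le_const hε
  have e3 := hpow (2 * κ) (by linarith) (A * B * m) (1 / 2) (by norm_num)
  have e4 := hcW (A ^ 2 * (4 * C3 + 1)) (1 / 4) (by norm_num)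
  have e5 := hpow (1 / 2) (by norm_num) (A * (4 * C4 + 1)) (1 / 4) (by norm_num)
  have e6 := hcW A (1 / 2) (by norm_num)
  have e7 := hcW E4 (κ * Real.log 2 / 16) (by positivity)
  have e8 : ∀ᶠ M : ℕ in atTop, E5 ≤ κ * Real.log 2 / 16 * (4 * ((M : ℝ) - Real.log A / Real.log 2)) := by
    have h := (tendsto_natCast_atTop_atTop (R := ℝ)).eventually_ge_atTop
      (E5 / (κ * Real.log 2 / 4) + Real.log A / Real.log 2)
    filter_upwards [h] with M hM
    have hc : 0 < κ * Real.log 2 / 4 := by positivity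
    have h5 : E5 / (κ * Real.log 2 / 4) ≤ (M : ℝ) - Real.log A / Real.log 2 := by linarith
    rw [div_le_iff₀ hc] at h5
    linarith
  obtain ⟨M₀, hM₀⟩ := eventually_atTop.1 ((((((((e1.and e2).and e3).and e4).and e5).and e6).and e7).and e8))
  refine ⟨M₀, fun M hM q hq => ?_⟩
  obtain ⟨⟨⟨⟨⟨⟨⟨f1, f2⟩, f3⟩, f4⟩, f5⟩, f6⟩, f7⟩, f8⟩ := hM₀ M hM
  have hq0 : 0 < q := by linarith
  have hqM := negM hq M
  set w : ℝ := (1 / 2 : ℝ) ^ M with hwd
  have hw0 : 0 < w := by positivity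
  have hm0 : (0 : ℝ) ≤ m := Nat.cast_nonneg m
  -- small powers
  have hAq : ∀ j : ℕ, 1 ≤ A * q ^ (2 * b * j - M) → q ^ (-((j : ℝ) / 2)) ≤ A * w := by
    intro j h
    have h5 : q ^ (2 * b * j - (M : ℝ)) ≤ q ^ ((j : ℝ) / 2) * w := by
      have e : (2 * b * j - (M : ℝ)) = 2 * b * j + -(M : ℝ) := by ring
      rw [e, Real.rpow_add hq0]
      have h7 : q ^ (2 * b * (j : ℝ)) ≤ q ^ ((j : ℝ) / 2) := by
        apply Real.rpow_le_rpow_of_exponent_le (by linarith)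
        have : (0 : ℝ) ≤ j := Nat.cast_nonneg j
        nlinarith
      exact mul_le_mul h7 hqM (by positivity) (by positivity)
    have h6 : 1 ≤ A * w * q ^ ((j : ℝ) / 2) := by nlinarith
    calc q ^ (-((j : ℝ) / 2)) = 1 * q ^ (-((j : ℝ) / 2)) := by ring
      _ ≤ A * w * q ^ ((j : ℝ) / 2) * q ^ (-((j : ℝ) / 2)) := mul_le_mul_of_nonneg_right h6 (by positivity)
      _ = A * w := by
        rw [mul_assoc, ← Real.rpow_add hq0]
        simp
  have hsplit : ∀ x : ℝ, q ^ (-(M : ℝ) - x) = q ^ (-(M : ℝ)) * q ^ (-x) := by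
    intro x
    rw [← Real.rpow_add hq0]
    congr 1
  refine ⟨?_, ?_, ?_, ?_, ?_⟩
  · -- dp
    intro c D hcD h
    by_contra hD
    have hc : c = 0 := by omega
    subst hc
    have h5 : A * q ^ (b * ((0 : ℕ) : ℝ) - M) ≤ A * w := by
      apply mul_le_mul_of_nonneg_left _ hA0.le
      refine le_trans (le_of_eq ?_) hqM
      congr 1
      push_cast
      ring
    linarith
  · -- est
    intro c D hcD h x hx
    have hD0 : (0 : ℝ) ≤ D := Nat.cast_nonneg D
    have hcR : (c : ℝ) ≤ D := by exact_mod_cast hcD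
    have hc0 : (0 : ℝ) ≤ c := Nat.cast_nonneg c
    have hlq : Real.log 2 ≤ Real.log q := Real.log_le_log (by norm_num) hq
    have hlq0 : 0 < Real.log q := by linarith
    have hlA : 0 ≤ Real.log A := Real.log_nonneg hA
    -- lower bound for the degree
    have hDlow : 4 * ((M : ℝ) - Real.log A / Real.log 2) ≤ D := by
      have h5 := Real.log_le_log (by norm_num) h
      rw [Real.log_one, Real.log_mul hA0.ne' (by positivity), Real.log_rpow hq0] at h5
      rcases le_or_gt ((M : ℝ) - b * c) 0 with h6 | h6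
      · have h7 : 0 ≤ Real.log A / Real.log 2 := by positivity
        nlinarith
      · have h7 : ((M : ℝ) - b * c) * Real.log 2 ≤ ((M : ℝ) - b * c) * Real.log q :=
          mul_le_mul_of_nonneg_left hlq h6.le
        have h8 : (M : ℝ) - b * c ≤ Real.log A / Real.log 2 := by
          rw [le_div_iff₀ hl2]
          linarith
        nlinarith
    have hD1 : (1 : ℝ) ≤ D := by
      have : 1 ≤ D := by
        by_contra hD
        have hc : c = 0 := by omega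
        subst hc
        have h5 : A * q ^ (b * ((0 : ℕ) : ℝ) - M) ≤ A * w := by
          apply mul_le_mul_of_nonneg_left _ hA0.le
          refine le_trans (le_of_eq ?_) hqM
          congr 1
          push_cast
          ring
        linarith
      exact_mod_cast this
    have hρ1 : 1 ≤ q ^ (κ / 2) := Real.one_le_rpow (by linarith) (by linarith)
    have hρρ : (2 : ℝ) ^ (κ / 2) ≤ q ^ (κ / 2) := Real.rpow_le_rpow (by norm_num) hq (by linarith)
    have hlog : Real.log (q ^ (κ / 2) / (q ^ (κ / 2) - 1)) ≤ Cρ := by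
      rw [hCρd]
      apply Real.log_le_log
      · apply div_pos <;> linarith
      · rw [div_le_div_iff₀ (by linarith) (by linarith)]
        nlinarith
    -- the terms
    have hterm : ∀ k ∈ (Icc 1 D).filter (fun k => 2 * k < D), x k / k * (1 + (q ^ (κ / 2)) ^ k) ≤
        (12 * A ^ 2 * w * (c + 1) + 2 * A * B * m) * ((k : ℝ) ^ 0 * (2 : ℝ) ^ (-(κ / 2 * k))) +
        (24 * A ^ 2 * w + 10 * A ^ 2 * B * (m : ℝ) ^ 2 * w) * ((k : ℝ) ^ 1 * (2 : ℝ) ^ (-(κ / 2 * k))) := by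
      intro k hk
      rw [mem_filter, mem_Icc] at hk
      obtain ⟨⟨hk1, _⟩, hk2⟩ := hk
      obtain ⟨hx0, hx1⟩ := hx k hk1 hk2
      have hkR : (1 : ℝ) ≤ k := by exact_mod_cast hk1
      have hk0 : (0 : ℝ) < k := by linarith
      have hpk : (q ^ (κ / 2)) ^ k = q ^ (κ / 2 * k) := by
        rw [← Real.rpow_natCast, ← Real.rpow_mul hq0.le]
      have h5 : 1 + (q ^ (κ / 2)) ^ k ≤ 2 * q ^ (κ / 2 * k) := by
        rw [hpk]
        have : 1 ≤ q ^ (κ / 2 * k) := Real.one_le_rpow (by linarith) (by positivity)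
        linarith
      have h6 : x k / k ≤ 6 * A ^ 2 * q ^ (-(M : ℝ) - η * k) * (c + 2 * k + 1) +
          5 * A ^ 2 * B * (m : ℝ) ^ 2 * k * q ^ (-(M : ℝ) - κ * k) + A * B * m * q ^ (-(κ * k)) := by
        rw [div_le_iff₀ hk0]
        refine hx1.trans (le_of_eq ?_)
        unfold Lm Rm
        ring
      have h7 : x k / k * (1 + (q ^ (κ / 2)) ^ k) ≤
          (6 * A ^ 2 * q ^ (-(M : ℝ) - η * k) * (c + 2 * k + 1) +
          5 * A ^ 2 * B * (m : ℝ) ^ 2 * k * q ^ (-(M : ℝ) - κ * k) + A * B * m * q ^ (-(κ * k))) *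
          (2 * q ^ (κ / 2 * k)) := mul_le_mul h6 h5 (by positivity) (by positivity)
      refine h7.trans ?_
      have g1 : q ^ (-(M : ℝ) - η * k) * q ^ (κ / 2 * k) ≤ w * (2 : ℝ) ^ (-(κ / 2 * k)) := by
        rw [hsplit, mul_assoc, ← Real.rpow_add hq0]
        apply mul_le_mul hqM _ (by positivity) (by positivity)
        have : -(η * k) + κ / 2 * k = -((η - κ / 2) * k) := by ring
        rw [this]
        apply neg_pow_le hq (by positivity)
        apply mul_le_mul_of_nonneg_right _ hk0.le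
        linarith
      have g2 : q ^ (-(M : ℝ) - κ * k) * q ^ (κ / 2 * k) ≤ w * (2 : ℝ) ^ (-(κ / 2 * k)) := by
        rw [hsplit, mul_assoc, ← Real.rpow_add hq0]
        apply mul_le_mul hqM _ (by positivity) (by positivity)
        have : -(κ * k) + κ / 2 * k = -((κ / 2) * k) := by ring
        rw [this]
        exact neg_pow_le hq (by positivity) le_rfl
      have g3 : q ^ (-(κ * k)) * q ^ (κ / 2 * k) ≤ (2 : ℝ) ^ (-(κ / 2 * k)) := by
        rw [← Real.rpow_add hq0]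
        have : -(κ * k) + κ / 2 * k = -((κ / 2) * k) := by ring
        rw [this]
        exact neg_pow_le hq (by positivity) le_rfl
      have hck : 0 ≤ (c : ℝ) + 2 * k + 1 := by positivity
      calc (6 * A ^ 2 * q ^ (-(M : ℝ) - η * k) * (c + 2 * k + 1) +
          5 * A ^ 2 * B * (m : ℝ) ^ 2 * k * q ^ (-(M : ℝ) - κ * k) + A * B * m * q ^ (-(κ * k))) *
          (2 * q ^ (κ / 2 * k)) =
          12 * A ^ 2 * (c + 2 * k + 1) * (q ^ (-(M : ℝ) - η * k) * q ^ (κ / 2 * k)) +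
          10 * A ^ 2 * B * (m : ℝ) ^ 2 * k * (q ^ (-(M : ℝ) - κ * k) * q ^ (κ / 2 * k)) +
          2 * A * B * m * (q ^ (-(κ * k)) * q ^ (κ / 2 * k)) := by ring
        _ ≤ 12 * A ^ 2 * (c + 2 * k + 1) * (w * (2 : ℝ) ^ (-(κ / 2 * k))) +
          10 * A ^ 2 * B * (m : ℝ) ^ 2 * k * (w * (2 : ℝ) ^ (-(κ / 2 * k))) +
          2 * A * B * m * (2 : ℝ) ^ (-(κ / 2 * k)) := by
          apply add_le_add (add_le_add _ _) _
          · exact mul_le_mul_of_nonneg_left g1 (by positivity)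
          · exact mul_le_mul_of_nonneg_left g2 (by positivity)
          · exact mul_le_mul_of_nonneg_left g3 (by positivity)
        _ = _ := by ring
    have hsum : ∑ k ∈ (Icc 1 D).filter (fun k => 2 * k < D), x k / k * (1 + (q ^ (κ / 2)) ^ k) ≤
        (12 * A ^ 2 * w * (c + 1) + 2 * A * B * m) * S0 +
        (24 * A ^ 2 * w + 10 * A ^ 2 * B * (m : ℝ) ^ 2 * w) * S1 := by
      refine (sum_le_sum hterm).trans ?_
      rw [sum_add_distrib, ← mul_sum, ← mul_sum]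
      apply add_le_add
      · exact mul_le_mul_of_nonneg_left (s0 _) (by positivity)
      · exact mul_le_mul_of_nonneg_left (s1 _) (by positivity)
    have hrhs : (D : ℝ) * (κ * Real.log 2) / 4 ≤ (D : ℝ) / 2 * Real.log (q ^ (κ / 2)) := by
      rw [Real.log_rpow hq0]
      have : κ * Real.log 2 ≤ κ * Real.log q := mul_le_mul_of_nonneg_left hlq hκ.le
      nlinarith
    have hb1 : (12 * A ^ 2 * w * (c + 1) + 2 * A * B * m) * S0 +
        (24 * A ^ 2 * w + 10 * A ^ 2 * B * (m : ℝ) ^ 2 * w) * S1 ≤ D * (E4 * w) + 2 * A * B * m * S0 := by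
      have k1 : 12 * A ^ 2 * w * (c + 1) * S0 ≤ 12 * A ^ 2 * w * (2 * D) * S0 := by
        apply mul_le_mul_of_nonneg_right _ hS0
        apply mul_le_mul_of_nonneg_left _ (by positivity)
        linarith
      have k2 : (24 * A ^ 2 * w + 10 * A ^ 2 * B * (m : ℝ) ^ 2 * w) * S1 ≤
          D * ((24 * A ^ 2 * w + 10 * A ^ 2 * B * (m : ℝ) ^ 2 * w) * S1) := by
        have : 0 ≤ (24 * A ^ 2 * w + 10 * A ^ 2 * B * (m : ℝ) ^ 2 * w) * S1 := by positivity
        have h9 : 0 ≤ ((D : ℝ) - 1) * ((24 * A ^ 2 * w + 10 * A ^ 2 * B * (m : ℝ) ^ 2 * w) * S1) :=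
          mul_nonneg (by linarith) this
        linarith
      rw [hE4]
      have e1 : (D : ℝ) * ((12 * A ^ 2 * (2 * S0 + 2 * S1) + 10 * A ^ 2 * B * (m : ℝ) ^ 2 * S1) * w) =
          12 * A ^ 2 * w * (2 * D) * S0 + D * ((24 * A ^ 2 * w + 10 * A ^ 2 * B * (m : ℝ) ^ 2 * w) * S1) := by
        ring
      have e2 : (12 * A ^ 2 * w * (c + 1) + 2 * A * B * m) * S0 = 12 * A ^ 2 * w * (c + 1) * S0 +
          2 * A * B * m * S0 := by ring
      rw [e1, e2]
      linarith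
    have hb2 : (D : ℝ) * (E4 * w) ≤ D * (κ * Real.log 2 / 16) := mul_le_mul_of_nonneg_left f7 hD0
    have hb3 : E5 ≤ κ * Real.log 2 / 16 * D := by
      refine f8.trans ?_
      exact mul_le_mul_of_nonneg_left hDlow (by positivity)
    have hpos : 0 < κ * Real.log 2 * D := by positivity
    rw [hE5] at hb3
    linarith
  · -- sm
    intro j hj
    unfold al
    have h5 : q ^ (-(M : ℝ) - η * j) = q ^ (-(M : ℝ)) * (q ^ (-(η / 10 * j)) * q ^ (-(9 / 10 * η * j))) := by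
      rw [← Real.rpow_add hq0, ← Real.rpow_add hq0]
      congr 1
      ring
    rw [h5]
    have h6 : (j : ℝ) * q ^ (-(η / 10 * j)) ≤ C1 := by
      refine le_trans ?_ (h1 j)
      rw [pow_one]
      exact mul_le_mul_of_nonneg_left (neg_pow_le hq (by positivity) le_rfl) (Nat.cast_nonneg j)
    have h7 : 6 * m * A * ((j : ℝ) * q ^ (-(η / 10 * j))) * q ^ (-(M : ℝ)) ≤ r₀ := by
      calc 6 * m * A * ((j : ℝ) * q ^ (-(η / 10 * j))) * q ^ (-(M : ℝ)) ≤ 6 * m * A * C1 * w := by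
            apply mul_le_mul (mul_le_mul_of_nonneg_left h6 (by positivity)) hqM (by positivity) (by positivity)
        _ ≤ r₀ := f1
    calc 6 * m * A * j * (q ^ (-(M : ℝ)) * (q ^ (-(η / 10 * j)) * q ^ (-(9 / 10 * η * j)))) =
        (6 * m * A * ((j : ℝ) * q ^ (-(η / 10 * j))) * q ^ (-(M : ℝ))) * q ^ (-(9 / 10 * η * j)) := by ring
      _ ≤ r₀ * q ^ (-(9 / 10 * η * j)) := mul_le_mul_of_nonneg_right h7 (by positivity)
  · -- pp
    intro j hj h
    have h5 := hAq j h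
    have hjR : (1 : ℝ) ≤ j := by exact_mod_cast hj
    unfold Rm
    have h6 : (j : ℝ) * q ^ (-(κ * j)) ≤ C2 := by
      refine le_trans ?_ (h2 j)
      rw [pow_one]
      exact mul_le_mul_of_nonneg_left (neg_pow_le hq (by positivity) le_rfl) (Nat.cast_nonneg j)
    have h7 : q ^ (-(κ * j)) ≤ (A * w) ^ (2 * κ) := by
      have : q ^ (-(κ * j)) = (q ^ (-((j : ℝ) / 2))) ^ (2 * κ) := by
        rw [← Real.rpow_mul hq0.le]
        congr 1
        ring
      rw [this]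
      exact Real.rpow_le_rpow (by positivity) h5 (by linarith)
    have h8 : 5 * A ^ 2 * B * (m : ℝ) ^ 2 * ((j : ℝ) * q ^ (-(κ * j))) * q ^ (-(M : ℝ)) ≤ 1 / 2 := by
      calc 5 * A ^ 2 * B * (m : ℝ) ^ 2 * ((j : ℝ) * q ^ (-(κ * j))) * q ^ (-(M : ℝ)) ≤
          5 * A ^ 2 * B * (m : ℝ) ^ 2 * C2 * w := by
            apply mul_le_mul (mul_le_mul_of_nonneg_left h6 (by positivity)) hqM (by positivity) (by positivity)
        _ ≤ 1 / 2 := f2
    have h9 : A * B * m * q ^ (-(κ * j)) ≤ 1 / 2 := by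
      refine le_trans ?_ f3
      exact mul_le_mul_of_nonneg_left h7 (by positivity)
    calc 5 * A ^ 2 * B * (m : ℝ) ^ 2 * (j : ℝ) ^ 2 * q ^ (-(M : ℝ) - κ * (j : ℝ)) +
        A * B * m * (j : ℝ) * q ^ (-(κ * (j : ℝ))) =
        (5 * A ^ 2 * B * (m : ℝ) ^ 2 * ((j : ℝ) * q ^ (-(κ * j))) * q ^ (-(M : ℝ))) * j +
          (A * B * m * q ^ (-(κ * j))) * j := by
          rw [hsplit]
          ring
      _ ≤ 1 / 2 * (j : ℝ) + 1 / 2 * (j : ℝ) := by
          apply add_le_add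
          · exact mul_le_mul_of_nonneg_right h8 (by linarith)
          · exact mul_le_mul_of_nonneg_right h9 (by linarith)
      _ = (j : ℝ) := by ring
  · -- dd
    intro j hj h
    have h5 := hAq j h
    have hjR : (1 : ℝ) ≤ j := by exact_mod_cast hj
    have hsq : Real.sqrt q ^ j = q ^ ((j : ℝ) / 2) := by
      rw [Real.sqrt_eq_rpow, ← Real.rpow_natCast, ← Real.rpow_mul hq0.le]
      congr 1
      ring
    have hqj : q ^ j = q ^ (j : ℝ) := (Real.rpow_natCast q j).symm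
    rw [hsq, hqj]
    have h6 : (4 * (j : ℝ) + 1) * q ^ (-(η * j)) ≤ 4 * C3 + 1 := by
      have h7 := h3 j
      rw [pow_one] at h7
      have h8 := neg_pow_le hq (x := η * j) (y := η * j) (by positivity) le_rfl
      have h9 : (2 : ℝ) ^ (-(η * (j : ℝ))) ≤ 1 := by
        apply Real.rpow_le_one_of_one_le_of_nonpos (by norm_num)
        have : 0 ≤ η * (j : ℝ) := by positivity
        linarith
      have h10 : (j : ℝ) * q ^ (-(η * (j : ℝ))) ≤ j * (2 : ℝ) ^ (-(η * (j : ℝ))) :=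
        mul_le_mul_of_nonneg_left h8 (by linarith)
      have h11 : (4 * (j : ℝ) + 1) * q ^ (-(η * j)) = 4 * ((j : ℝ) * q ^ (-(η * (j : ℝ)))) + q ^ (-(η * (j : ℝ))) := by
        ring
      rw [h11]
      linarith
    have h7 : (4 * (j : ℝ) + 1) * q ^ (-((j : ℝ) / 4)) ≤ 4 * C4 + 1 := by
      have h7 := h4 j
      rw [pow_one] at h7
      have h8 := neg_pow_le hq (x := (j : ℝ) / 4) (y := 1 / 4 * j) (by positivity) (by linarith)
      have h9 : (2 : ℝ) ^ (-(1 / 4 * (j : ℝ))) ≤ 1 :=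
        Real.rpow_le_one_of_one_le_of_nonpos (by norm_num) (by linarith)
      have h10 : (j : ℝ) * q ^ (-((j : ℝ) / 4)) ≤ j * (2 : ℝ) ^ (-(1 / 4 * (j : ℝ))) :=
        mul_le_mul_of_nonneg_left h8 (by linarith)
      have h11 : (4 * (j : ℝ) + 1) * q ^ (-((j : ℝ) / 4)) =
          4 * ((j : ℝ) * q ^ (-((j : ℝ) / 4))) + q ^ (-((j : ℝ) / 4)) := by
        ring
      rw [h11]
      linarith
    have h8 : q ^ (-((j : ℝ) / 4)) ≤ (A * w) ^ (1 / 2 : ℝ) := by
      have : q ^ (-((j : ℝ) / 4)) = (q ^ (-((j : ℝ) / 2))) ^ (1 / 2 : ℝ) := by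
        rw [← Real.rpow_mul hq0.le]
        congr 1
        ring
      rw [this]
      exact Real.rpow_le_rpow (by positivity) h5 (by norm_num)
    have h9 : A ^ 2 * ((4 * (j : ℝ) + 1) * q ^ (-(η * j))) * q ^ (-(M : ℝ)) ≤ 1 / 4 := by
      refine le_trans ?_ f4
      exact mul_le_mul (mul_le_mul_of_nonneg_left h6 (by positivity)) hqM (by positivity) (by positivity)
    have h10 : A * ((4 * (j : ℝ) + 1) * q ^ (-((j : ℝ) / 4))) * q ^ (-((j : ℝ) / 4)) ≤ 1 / 4 := by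
      refine le_trans ?_ f5
      exact mul_le_mul (mul_le_mul_of_nonneg_left h7 (by positivity)) h8 (by positivity) (by positivity)
    have i1 : q ^ (2 * b * j - (M : ℝ)) * q ^ ((j : ℝ) / 2) = q ^ (-(η * j)) * q ^ (-(M : ℝ)) * q ^ (j : ℝ) := by
      rw [← Real.rpow_add hq0, ← Real.rpow_add hq0, ← Real.rpow_add hq0]
      congr 1
      rw [hηd]
      unfold eta
      ring
    have i2 : q ^ ((j : ℝ) / 2) = q ^ (-((j : ℝ) / 4)) * q ^ (-((j : ℝ) / 4)) * q ^ (j : ℝ) := by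
      rw [← Real.rpow_add hq0, ← Real.rpow_add hq0]
      congr 1
      ring
    calc (A * q ^ (2 * b * j - (M : ℝ)) + 1) * (A * (4 * j + 1) * q ^ ((j : ℝ) / 2)) =
        A ^ 2 * (4 * j + 1) * (q ^ (2 * b * j - (M : ℝ)) * q ^ ((j : ℝ) / 2)) +
          A * (4 * j + 1) * q ^ ((j : ℝ) / 2) := by ring
      _ = (A ^ 2 * ((4 * (j : ℝ) + 1) * q ^ (-(η * j))) * q ^ (-(M : ℝ))) * q ^ (j : ℝ) +
          (A * ((4 * (j : ℝ) + 1) * q ^ (-((j : ℝ) / 4))) * q ^ (-((j : ℝ) / 4))) * q ^ (j : ℝ) := by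
          rw [i1]
          conv_lhs => rw [i2]
          ring
      _ ≤ 1 / 4 * q ^ (j : ℝ) + 1 / 4 * q ^ (j : ℝ) := by
          apply add_le_add
          · exact mul_le_mul_of_nonneg_right h9 (by positivity)
          · exact mul_le_mul_of_nonneg_right h10 (by positivity)
      _ = q ^ (j : ℝ) / 2 := by ring

end Pool.Agent.Q284.CT
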