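import Pool.Agent.Q284.CT.Gsl

/-!
# Project CT: the prime powers
-/

set_option autoImplicit false

open Finset Polynomial ComplexConjugate

namespace Pool.Agent.Q284.CT

theorem al_nonneg {q A η : ℝ} (hq : 2 ≤ q) (hA : 1 ≤ A) (m M j : ℕ) : 0 ≤ al q A η m M j := by
  unfold al
  have : 0 < q ^ (-(M : ℝ) - η * j) := Real.rpow_pos_of_pos (by linarith) _
  positivity

theorem kap_le1 (b ϑ : ℝ) (K : ℕ) : kap b ϑ K ≤ eta b / 2 := (min_le_left _ _).trans (min_le_left _ _)

theorem kap_le2 (b ϑ : ℝ) (K : ℕ) : kap b ϑ K ≤ 1 / 6 := (min_le_left _ _).trans (min_le_right _ _)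

theorem kap_le3 (b ϑ : ℝ) (K : ℕ) : kap b ϑ K ≤ 1 / 2 - ϑ - 1 / K := min_le_right _ _

theorem eta_pos {r₀ A B b ϑ : ℝ} {K : ℕ} (hP : Par r₀ A B b ϑ K) : 0 < eta b := by
  have := hP.b1
  unfold eta
  linarith

theorem kap_pos {r₀ A B b ϑ : ℝ} {K : ℕ} (hP : Par r₀ A B b ϑ K) : 0 < kap b ϑ K := by
  have h1 := eta_pos hP
  have hK : (0 : ℝ) < K := by
    have := hP.K3
    exact_mod_cast (by omega : 0 < K)
  have h2 : 0 < 1 / 2 - ϑ - 1 / K := by
    have h3 := hP.K1
    have h4 : 1 / (K : ℝ) < 1 / 2 - ϑ := by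
      rw [div_lt_iff₀ hK]
      linarith
    linarith
  unfold kap
  exact lt_min (lt_min (by linarith) (by norm_num)) h2

theorem rpw {V T ι : Type} {m : ℕ} {q r₀ A B b ϑ : ℝ} {K M : ℕ} {deg : V → ℕ} {pl : ℕ → Finset V}
    {par : T → V → Fin m → ℂ} {dual : T → T} {per c : T → ℕ} {p : ι → V → (ι → ℝ) → ℕ → ℝ}
    (hq : 2 ≤ q) (hP : Par r₀ A B b ϑ K) (hpl : Places q A deg pl) (hF : Family q A b M deg pl par dual per c)
    (hp : Loc ι q r₀ B ϑ K deg p) (hsm : ∀ j : ℕ, 1 ≤ j → al q A (eta b) m M j ≤ r₀)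
    {a : V → ι → ℝ} {k : ℕ} (hk : 1 ≤ k) (ha : ∀ (v : V) (i : ι), deg v < k → |a v i| ≤ al q A (eta b) m M (deg v))
    (i : ι) (τ : T) : ‖pw pl p a i (lam par τ) k‖ ≤ Rm q A B (kap b ϑ K) m M k * Real.sqrt q ^ k := by
  have hq0 : 0 < q := by linarith
  have hA := hP.A1
  have hA0 : 0 < A := by linarith
  have hB := hP.B0
  have hη := eta_pos hP
  have hm0 : (0 : ℝ) ≤ m := Nat.cast_nonneg m
  have hkR : (1 : ℝ) ≤ k := by exact_mod_cast hk
  set κ : ℝ := kap b ϑ K with hκ
  set η : ℝ := eta b with hηd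
  have hsq : Real.sqrt q ^ k = q ^ ((k : ℝ) / 2) := by
    rw [Real.sqrt_eq_rpow, ← Real.rpow_natCast, ← Real.rpow_mul hq0.le]
    congr 1
    ring
  have hη2 : η ≤ 1 / 2 := by
    have := hP.b0
    rw [hηd]
    unfold eta
    linarith
  set W1 : ℝ := q ^ (-(M : ℝ) - κ * k) * q ^ ((k : ℝ) / 2) with hW1
  set W2 : ℝ := q ^ (-(κ * k)) * q ^ ((k : ℝ) / 2) with hW2
  have hW10 : 0 < W1 := by positivity
  have hW20 : 0 < W2 := by positivity
  have hterm : ∀ d ∈ k.properDivisors, ‖∑ v ∈ pl d, (d : ℂ) * (p i v (a v) (k / d) : ℂ) * lam par τ v (k / d)‖ ≤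
      3 * A ^ 2 * B * (m : ℝ) ^ 2 * k * W1 + A * B * m * W2 := by
    intro d hd
    rw [Nat.mem_properDivisors] at hd
    obtain ⟨⟨e, he⟩, hdk⟩ := hd
    have hd1 : 1 ≤ d := by
      rcases Nat.eq_zero_or_pos d with h | h
      · rw [h, zero_mul] at he
        omega
      · exact h
    have hdR : (1 : ℝ) ≤ d := by exact_mod_cast hd1
    have he2 : 2 ≤ e := by
      rcases Nat.lt_or_ge e 2 with h | h
      · interval_cases e <;> omega
      · exact h
    have hde : k / d = e := by rw [he, Nat.mul_div_cancel_left e hd1]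
    have hkde : (k : ℝ) = d * e := by exact_mod_cast he
    have heR : (2 : ℝ) ≤ e := by exact_mod_cast he2
    rw [hde]
    have hav : ∀ v ∈ pl d, ∀ i', |a v i'| ≤ al q A η m M d := by
      intro v hv i'
      have h1 := (hpl.mem v d).1 hv
      have h2 := ha v i' (by omega)
      rwa [h1] at h2
    -- a uniform bound for the power sums gives the bound
    have hgen : ∀ Z : ℝ, 0 ≤ Z → (∀ v ∈ pl d, |p i v (a v) e| ≤ Z) →
        ‖∑ v ∈ pl d, (d : ℂ) * (p i v (a v) e : ℂ) * lam par τ v e‖ ≤ A * q ^ (d : ℝ) * Z * m := by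
      intro Z hZ hZ2
      calc ‖∑ v ∈ pl d, (d : ℂ) * (p i v (a v) e : ℂ) * lam par τ v e‖ ≤ ∑ _v ∈ pl d, (d : ℝ) * Z * m := by
            refine (norm_sum_le _ _).trans (sum_le_sum (fun v hv => ?_))
            rw [norm_mul, norm_mul, Complex.norm_natCast, Complex.norm_real, Real.norm_eq_abs]
            apply mul_le_mul _ (lam_bd hF τ v e) (norm_nonneg _) (by positivity)
            exact mul_le_mul_of_nonneg_left (hZ2 v hv) (by positivity)
        _ = (d * (pl d).card) * (Z * m) := by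
            rw [sum_const, nsmul_eq_mul]
            ring
        _ ≤ (A * q ^ d) * (Z * m) := mul_le_mul_of_nonneg_right (hpl.card d) (by positivity)
        _ = A * q ^ (d : ℝ) * Z * m := by
            rw [Real.rpow_natCast]
            ring
    rcases Nat.lt_or_ge e K with heK | heK
    · have h1 := hgen (B * al q A η m M d) (mul_nonneg hB (al_nonneg hq hA m M d)) (fun v hv =>
        hp.mid i v (a v) e _ (hsm d hd1) (hav v hv) he2 heK)
      refine h1.trans ?_
      have h2 : q ^ (d : ℝ) * q ^ (-(M : ℝ) - η * d) ≤ W1 := by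
        rw [hW1, ← Real.rpow_add hq0, ← Real.rpow_add hq0]
        apply Real.rpow_le_rpow_of_exponent_le (by linarith)
        have h3 : (d : ℝ) - η * d ≤ (k : ℝ) / 2 - κ * k := by
          rcases Nat.eq_or_lt_of_le he2 with h4 | h4
          · have h5 : (k : ℝ) = 2 * d := by
              rw [hkde, ← h4]
              push_cast
              ring
            have h6 := kap_le1 b ϑ K
            rw [← hκ, ← hηd] at h6
            have h7 : κ * k ≤ η / 2 * k := mul_le_mul_of_nonneg_right h6 (by linarith)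
            rw [h5] at h7 ⊢
            linarith
          · have h5 : 3 * (d : ℝ) ≤ k := by
              have : (3 : ℝ) ≤ e := by exact_mod_cast h4
              rw [hkde]
              nlinarith
            have h6 := kap_le2 b ϑ K
            rw [← hκ] at h6
            have h7 : κ * k ≤ 1 / 6 * k := mul_le_mul_of_nonneg_right h6 (by linarith)
            have h8 : 0 ≤ η * d := by positivity
            linarith
        linarith
      have h9 : (d : ℝ) ≤ k / 2 := by
        rw [hkde]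
        nlinarith
      unfold al
      calc A * q ^ (d : ℝ) * (B * (6 * m * A * d * q ^ (-(M : ℝ) - η * d))) * m =
          6 * A ^ 2 * B * (m : ℝ) ^ 2 * d * (q ^ (d : ℝ) * q ^ (-(M : ℝ) - η * d)) := by ring
        _ ≤ 6 * A ^ 2 * B * (m : ℝ) ^ 2 * (k / 2) * W1 := by
          apply mul_le_mul _ h2 (by positivity) (by positivity)
          exact mul_le_mul_of_nonneg_left h9 (by positivity)
        _ = 3 * A ^ 2 * B * (m : ℝ) ^ 2 * k * W1 + 0 := by ring
        _ ≤ _ := by
          have : 0 ≤ A * B * m * W2 := by positivity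
          linarith
    · have hkd : (k : ℝ) = (k / d : ℕ) * d := by
        rw [hde, hkde]
        ring
      have h1 := hgen (B * q ^ (ϑ * (e * d))) (by positivity) (fun v hv => by
        have h2 := hp.all i v (a v) e (fun i' => (hav v hv i').trans (hsm d hd1)) (by omega)
        rwa [(hpl.mem v d).1 hv] at h2)
      refine h1.trans ?_
      have hKR : (K : ℝ) ≤ e := by exact_mod_cast heK
      have hK0 : (0 : ℝ) < K := by
        have := hP.K3
        exact_mod_cast (by omega : 0 < K)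
      have h2 : q ^ (d : ℝ) * q ^ (ϑ * (e * d)) ≤ W2 := by
        rw [hW2, ← Real.rpow_add hq0, ← Real.rpow_add hq0]
        apply Real.rpow_le_rpow_of_exponent_le (by linarith)
        have h6 := kap_le3 b ϑ K
        rw [← hκ] at h6
        have h7 : κ * k ≤ (1 / 2 - ϑ - 1 / K) * k := mul_le_mul_of_nonneg_right h6 (by linarith)
        have h8 : (d : ℝ) ≤ 1 / K * k := by
          rw [one_div, inv_mul_eq_div, le_div_iff₀ hK0, hkde]
          exact mul_le_mul_of_nonneg_left hKR (by linarith)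
        have h9 : ϑ * (e * d) = ϑ * (k : ℝ) := by rw [hkde]; ring
        rw [h9]
        linarith
      calc A * q ^ (d : ℝ) * (B * q ^ (ϑ * (e * d))) * m = A * B * m * (q ^ (d : ℝ) * q ^ (ϑ * (e * d))) := by ring
        _ ≤ A * B * m * W2 := mul_le_mul_of_nonneg_left h2 (by positivity)
        _ ≤ _ := by
          have : 0 ≤ 3 * A ^ 2 * B * (m : ℝ) ^ 2 * k * W1 := by positivity
          linarith
  unfold pw
  refine (norm_sum_le _ _).trans ?_
  calc ∑ d ∈ k.properDivisors, ‖∑ v ∈ pl d, (d : ℂ) * (p i v (a v) (k / d) : ℂ) * lam par τ v (k / d)‖ ≤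
      ∑ _d ∈ k.properDivisors, (3 * A ^ 2 * B * (m : ℝ) ^ 2 * k * W1 + A * B * m * W2) := sum_le_sum hterm
    _ = (k.properDivisors.card : ℝ) * (3 * A ^ 2 * B * (m : ℝ) ^ 2 * k * W1 + A * B * m * W2) := by
      rw [sum_const, nsmul_eq_mul]
    _ ≤ k * (3 * A ^ 2 * B * (m : ℝ) ^ 2 * k * W1 + A * B * m * W2) := by
      apply mul_le_mul_of_nonneg_right _ (by positivity)
      have h1 : k.properDivisors.card ≤ k := by
        have h2 : k.properDivisors ⊆ Ico 1 (k + 1) := by
          intro d hd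
          rw [Nat.mem_properDivisors] at hd
          rw [mem_Ico]
          refine ⟨Nat.pos_of_dvd_of_pos hd.1 hk, by omega⟩
        refine (card_le_card h2).trans ?_
        simp
      exact_mod_cast h1
    _ ≤ _ := by
      rw [hsq]
      unfold Rm
      have e1 : (5 * A ^ 2 * B * (m : ℝ) ^ 2 * (k : ℝ) ^ 2 * q ^ (-(M : ℝ) - κ * k) +
          A * B * m * k * q ^ (-(κ * k))) * q ^ ((k : ℝ) / 2) =
          5 * A ^ 2 * B * (m : ℝ) ^ 2 * (k : ℝ) ^ 2 * W1 + A * B * m * k * W2 := by
        rw [hW1, hW2]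
        ring
      rw [e1]
      have h2 : 0 ≤ A ^ 2 * B * (m : ℝ) ^ 2 * (k : ℝ) ^ 2 * W1 := by positivity
      have e2 : (k : ℝ) * (3 * A ^ 2 * B * (m : ℝ) ^ 2 * k * W1 + A * B * m * W2) =
          3 * (A ^ 2 * B * (m : ℝ) ^ 2 * (k : ℝ) ^ 2 * W1) + A * B * m * k * W2 := by ring
      rw [e2]
      linarith

end Pool.Agent.Q284.CT
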