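import Pool.Agent.Q284.CT.Rpw
import Pool.Agent.Q284.CT.Num
import Pool.Agent.Q284.GE.Step
import Pool.Agent.Q96.GE.TGT
import Pool.Agent.Q150.GE.CIR
import Pool.Agent.Q166.GE.EXPO

/-!
# Project CT: one step of the construction
-/

set_option autoImplicit false

open Finset Polynomial ComplexConjugate

namespace Pool.Agent.Q284.CT

open Pool.Agent.Q284.GE (Uni Newt uni_unique newt_unique uni_conj newt_conj newt_congr mul_div_self' sqrt_pow_eq)

section Basic

variable {V T ι : Type} {m : ℕ}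

theorem ps_split {q : ℝ} (hq : 2 ≤ q) {pl : ℕ → Finset V} {p : ι → V → (ι → ℝ) → ℕ → ℝ} {a : V → ι → ℝ} {i : ι}
    {lm : V → ℕ → ℂ} {k : ℕ} (hk : 1 ≤ k) (h1 : ∀ v ∈ pl k, p i v (a v) 1 = a v i) :
    ps q pl p a i lm k * (Real.sqrt q : ℂ) ^ k = k * ∑ v ∈ pl k, (a v i : ℂ) * lm v 1 + pw pl p a i lm k := by
  have hq0 : 0 < Real.sqrt q := Real.sqrt_pos.2 (by linarith)
  have hqc : (Real.sqrt q : ℂ) ^ k ≠ 0 := by
    apply pow_ne_zero
    exact_mod_cast hq0.ne'
  unfold ps pw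
  rw [div_mul_cancel₀ _ hqc, ← Nat.insert_self_properDivisors (by omega : k ≠ 0),
    sum_insert Nat.self_notMem_properDivisors, Nat.div_self hk, mul_sum]
  congr 1
  apply sum_congr rfl
  intro v hv
  rw [h1 v hv]
  ring

theorem ps_congr {q A : ℝ} {deg : V → ℕ} {pl : ℕ → Finset V} (hpl : Places q A deg pl)
    {p : ι → V → (ι → ℝ) → ℕ → ℝ} {a a' : V → ι → ℝ} {N : ℕ}
    (h : ∀ v : V, deg v ≤ N → a v = a' v) (i : ι) (lm : V → ℕ → ℂ) {k : ℕ} (hk1 : 1 ≤ k) (hk : k ≤ N) :
    ps q pl p a i lm k = ps q pl p a' i lm k := by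
  unfold ps
  congr 1
  apply sum_congr rfl
  intro d hd
  apply sum_congr rfl
  intro v hv
  have h1 := (hpl.mem v d).1 hv
  have h2 := Nat.divisor_le hd
  rw [h v (by omega)]

theorem pw_congr {q A : ℝ} {deg : V → ℕ} {pl : ℕ → Finset V} (hpl : Places q A deg pl)
    {p : ι → V → (ι → ℝ) → ℕ → ℝ} {a a' : V → ι → ℝ} {k : ℕ}
    (h : ∀ v : V, deg v < k → a v = a' v) (i : ι) (lm : V → ℕ → ℂ) :
    pw pl p a i lm k = pw pl p a' i lm k := by
  unfold pw
  apply sum_congr rfl
  intro d hd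
  apply sum_congr rfl
  intro v hv
  have h1 := (hpl.mem v d).1 hv
  have h2 := (Nat.mem_properDivisors.1 hd).2
  rw [h v (by omega)]

variable {q A b : ℝ} {M : ℕ} {deg : V → ℕ} {pl : ℕ → Finset V} {par : T → V → Fin m → ℂ} {dual : T → T}
  {per c : T → ℕ}

theorem ps_conj (hF : Family q A b M deg pl par dual per c) {p : ι → V → (ι → ℝ) → ℕ → ℝ} {a : V → ι → ℝ} (i : ι)
    (τ : T) (k : ℕ) : ps q pl p a i (lam par (dual τ)) k = conj (ps q pl p a i (lam par τ) k) := by
  unfold ps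
  rw [map_div₀, map_pow, Complex.conj_ofReal, map_sum]
  congr 1
  apply sum_congr rfl
  intro d hd
  rw [map_sum]
  apply sum_congr rfl
  intro v _
  have h1 : 1 ≤ k / d := Nat.div_pos (Nat.divisor_le hd) (Nat.pos_of_mem_divisors hd)
  rw [hF.dual_lam τ v _ h1, map_mul, map_mul, Complex.conj_ofReal, map_natCast]

theorem pw_conj (hF : Family q A b M deg pl par dual per c) {p : ι → V → (ι → ℝ) → ℕ → ℝ} {a : V → ι → ℝ} (i : ι)
    (τ : T) (k : ℕ) : pw pl p a i (lam par (dual τ)) k = conj (pw pl p a i (lam par τ) k) := by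
  unfold pw
  rw [map_sum]
  apply sum_congr rfl
  intro d hd
  rw [map_sum]
  apply sum_congr rfl
  intro v _
  have h0 := Nat.mem_properDivisors.1 hd
  have hd0 : 0 < d := Nat.pos_of_dvd_of_pos h0.1 (by omega)
  have h1 : 1 ≤ k / d := Nat.div_pos h0.2.le hd0
  rw [hF.dual_lam τ v _ h1, map_mul, map_mul, Complex.conj_ofReal, map_natCast]

theorem pw_zero (hpl : Places q A deg pl) (hF : Family q A b M deg pl par dual per c)
    {p : ι → V → (ι → ℝ) → ℕ → ℝ} {a : V → ι → ℝ} (i : ι)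
    {τ : T} {k : ℕ} (hk : ¬ per τ ∣ k) : pw pl p a i (lam par τ) k = 0 := by
  unfold pw
  apply sum_eq_zero
  intro d hd
  apply sum_eq_zero
  intro v hv
  have h0 := Nat.mem_properDivisors.1 hd
  have hd0 : 0 < d := Nat.pos_of_dvd_of_pos h0.1 (by omega)
  have h1 : 1 ≤ k / d := Nat.div_pos h0.2.le hd0
  rw [hF.per_zero τ v _ h1 (by rwa [(hpl.mem v d).1 hv, Nat.div_mul_cancel h0.1]), mul_zero]

theorem ps_zero (hpl : Places q A deg pl) (hF : Family q A b M deg pl par dual per c)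
    {p : ι → V → (ι → ℝ) → ℕ → ℝ} {a : V → ι → ℝ} (i : ι)
    {τ : T} {k : ℕ} (hk : ¬ per τ ∣ k) : ps q pl p a i (lam par τ) k = 0 := by
  unfold ps
  rw [sum_eq_zero, zero_div]
  intro d hd
  apply sum_eq_zero
  intro v hv
  have h1 : 1 ≤ k / d := Nat.div_pos (Nat.divisor_le hd) (Nat.pos_of_mem_divisors hd)
  rw [hF.per_zero τ v _ h1 (by rwa [(hpl.mem v d).1 hv, Nat.div_mul_cancel (Nat.dvd_of_mem_divisors hd)]), mul_zero]

theorem sum_zero (hpl : Places q A deg pl) (hF : Family q A b M deg pl par dual per c)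
    (x : V → ℝ) {τ : T} {k : ℕ} (hk : ¬ per τ ∣ k) : ∑ v ∈ pl k, (x v : ℂ) * lam par τ v 1 = 0 := by
  apply sum_eq_zero
  intro v hv
  rw [hF.per_zero τ v 1 le_rfl (by rwa [(hpl.mem v k).1 hv, one_mul]), mul_zero]

/-- a twist exists only if there is room for it -/
theorem room (hF : Family q A b M deg pl par dual per c) (τ : T) : 1 ≤ A * q ^ (b * c τ - M) := by
  obtain ⟨h1, h2⟩ := hF.card (c τ)
  refine le_trans ?_ h2
  have h3 : τ ∈ {τ' : T | c τ' ≤ c τ} := by simp
  have h4 : 0 < {τ' : T | c τ' ≤ c τ}.ncard := (Set.ncard_pos h1).2 ⟨τ, h3⟩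
  exact_mod_cast h4

end Basic

section Period

/-- the coefficients outside the multiples of the period -/
theorem per1 {D P : ℕ} {ε : ℂ} {b : ℂ[X]} {s : ℕ → ℂ} (hb : Uni D ε b) (h0 : ∀ n : ℕ, 2 * n = D → b.coeff n = 0)
    (h1 : ∀ n : ℕ, 1 ≤ n → 2 * n < D → (n : ℂ) * b.coeff n = ∑ k ∈ Icc 1 n, s k * b.coeff (n - k))
    (hP : P ∣ D) (hs : ∀ k : ℕ, ¬ P ∣ k → s k = 0) {n : ℕ} (hn : ¬ P ∣ n) : b.coeff n = 0 := by
  have key : ∀ n : ℕ, 2 * n < D → ¬ P ∣ n → b.coeff n = 0 := by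
    intro n
    induction n using Nat.strong_induction_on with
    | _ n ih =>
      intro hn hPn
      have hp : 1 ≤ n := by
        rcases Nat.eq_zero_or_pos n with h | h
        · exact absurd (h ▸ dvd_zero P) hPn
        · exact h
      have e1 := h1 n hp hn
      have e2 : ∑ k ∈ Icc 1 n, s k * b.coeff (n - k) = 0 := by
        apply sum_eq_zero
        intro k hk
        rw [mem_Icc] at hk
        by_cases hPk : P ∣ k
        · rw [ih (n - k) (by omega) (by omega) (fun h => hPn (by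
            have := Nat.dvd_add h hPk
            rwa [Nat.sub_add_cancel hk.2] at this)), mul_zero]
        · rw [hs k hPk, zero_mul]
      rw [e2] at e1
      have hn0 : (n : ℂ) ≠ 0 := by exact_mod_cast (by omega : n ≠ 0)
      exact (mul_eq_zero.1 e1).resolve_left hn0
  rcases lt_trichotomy (2 * n) D with h | h | h
  · exact key n h hn
  · exact h0 n h
  · rcases le_or_gt n D with h2 | h2
    · have e1 := hb.fe (D - n) (by omega)
      have e3 : D - (D - n) = n := by omega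
      rw [e3] at e1
      rw [e1, key (D - n) (by omega) (fun h' => hn (by
        have := (Nat.dvd_sub hP h')
        rwa [e3] at this)), map_zero, mul_zero]
    · exact coeff_eq_zero_of_natDegree_lt (by rw [hb.deg]; exact h2)

/-- the power sums outside the multiples of the period -/
theorem per2 {P : ℕ} {b : ℂ[X]} {s : ℕ → ℂ} (h0 : b.coeff 0 = 1) (hb : ∀ n : ℕ, ¬ P ∣ n → b.coeff n = 0)
    (h1 : ∀ N : ℕ, Newt s b N) : ∀ n : ℕ, ¬ P ∣ n → s n = 0 ∨ n = 0 := by
  intro n
  induction n using Nat.strong_induction_on with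
  | _ n ih =>
    intro hn
    rcases Nat.eq_zero_or_pos n with h | hp
    · exact Or.inr h
    · left
      have e1 := h1 n n hp le_rfl
      have hm : n ∈ Icc 1 n := mem_Icc.2 ⟨hp, le_rfl⟩
      rw [hb n hn, mul_zero, ← sum_erase_add _ _ hm, Nat.sub_self, h0, mul_one] at e1
      have e2 : ∑ k ∈ (Icc 1 n).erase n, s k * b.coeff (n - k) = 0 := by
        apply sum_eq_zero
        intro k hk
        rw [mem_erase, mem_Icc] at hk
        by_cases hPk : P ∣ k
        · rw [hb (n - k) (fun h => hn (by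
            have := Nat.dvd_add h hPk
            rwa [Nat.sub_add_cancel hk.2.2] at this)), mul_zero]
        · rcases ih k (by omega) hPk with h | h
          · rw [h, zero_mul]
          · omega
      rw [e2, zero_add] at e1
      exact e1.symm

end Period

section Step

variable {V T ι : Type} {m : ℕ} {q r₀ A B b ϑ : ℝ} {K M : ℕ} {deg : V → ℕ} {pl : ℕ → Finset V}
  {par : T → V → Fin m → ℂ} {dual : T → T} {per c : T → ℕ} {p : ι → V → (ι → ℝ) → ℕ → ℝ}
  {D : ι → T → ℕ} {ε : ι → T → ℂ}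

/-- the polynomial, if the sum condition holds -/
theorem exists_pol (hq : 2 ≤ q) {κ : ℝ} (hκ : 0 < κ) (hF : Family q A b M deg pl par dual per c)
    (hnum : Num q r₀ A B b (eta b) κ m M) (hdat : Dat ι dual per c D ε) {i : ι} {τ : T} {s : ℕ → ℂ}
    (hs : ∀ k : ℕ, 1 ≤ k → 2 * k < D i τ → ‖s k‖ ≤ Lm q A (eta b) M (c τ) k + Rm q A B κ m M k) :
    ∃ b' : ℂ[X], Uni (D i τ) (ε i τ) b' ∧ (∀ n : ℕ, 2 * n = D i τ → b'.coeff n = 0) ∧
      ∀ n : ℕ, 1 ≤ n → 2 * n < D i τ → (n : ℂ) * b'.coeff n = ∑ k ∈ Icc 1 n, s k * b'.coeff (n - k) := by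
  have hroom := room hF τ
  have h3 : 1 ≤ D i τ := hnum.dp _ _ (hdat.deg i τ) hroom
  have hρ : 1 < q ^ (κ / 2) := Real.one_lt_rpow (by linarith) (by linarith)
  obtain ⟨Q, hA1, hA2, hA3, hA4⟩ := Pool.Agent.Q166.GE.t_EXPO (D i τ) s (q ^ (κ / 2)) h3 hρ
    (hnum.est (c τ) (D i τ) (hdat.deg i τ) hroom (fun k => ‖s k‖)
      (fun k hk1 hk2 => ⟨norm_nonneg _, hs k hk1 hk2⟩))
  obtain ⟨b', hb1, hb2, hb3⟩ := Pool.Agent.Q150.GE.t_CIR (D i τ) (ε i τ) Q h3 (hdat.eps i τ) hA1 hA2 hA3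
  refine ⟨b', hb1, hb3, ?_⟩
  intro n hn1 hn2
  rw [hb2 n hn2, hA4 n hn1 hn2]
  apply sum_congr rfl
  intro k hk
  rw [mem_Icc] at hk
  rw [hb2 (n - k) (by omega)]

theorem al_le (hq : 2 ≤ q) (hP : Par r₀ A B b ϑ K) {κ : ℝ} (hnum : Num q r₀ A B b (eta b) κ m M) {j : ℕ}
    (hj : 1 ≤ j) : al q A (eta b) m M j ≤ r₀ := by
  refine (hnum.sm j hj).trans ?_
  have h1 : q ^ (-(9 / 10 * eta b * j)) ≤ 1 := by
    apply Real.rpow_le_one_of_one_le_of_nonpos (by linarith)
    have := eta_pos hP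
    have : 0 ≤ 9 / 10 * eta b * j := by positivity
    linarith
  have := hP.r0
  nlinarith

/-- the values which are forced in degree `j = N + 1`, and the solution of the linear equations, for one index -/
theorem step_one (hq : 2 ≤ q) (hP : Par r₀ A B b ϑ K) (hpl : Places q A deg pl)
    (hF : Family q A b M deg pl par dual per c) (hp : Loc ι q r₀ B ϑ K deg p)
    (hnum : Num q r₀ A B b (eta b) (kap b ϑ K) m M) (hdat : Dat ι dual per c D ε) {N : ℕ} {a : V → ι → ℝ}
    (hinv : Inv ι q A B (eta b) (kap b ϑ K) M deg pl par c D ε p N a) (i : ι) :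
    ∃ x : V → ℝ, (∀ v, |x v| ≤ al q A (eta b) m M (N + 1)) ∧
      (∀ τ : T, 2 * (N + 1) < D i τ →
        ‖((N + 1 : ℕ) : ℂ) * ∑ v ∈ pl (N + 1), (x v : ℂ) * lam par τ v 1‖ ≤
          Lm q A (eta b) M (c τ) (N + 1) * Real.sqrt q ^ (N + 1)) ∧
      ∀ τ : T, D i τ ≤ 2 * (N + 1) →
        ∃ b' : ℂ[X], Uni (D i τ) (ε i τ) b' ∧ (∀ n : ℕ, 2 * n = D i τ → b'.coeff n = 0) ∧
          ∃ s : ℕ → ℂ, Newt s b' (N + 1) ∧ (∀ k : ℕ, 1 ≤ k → k ≤ N → s k = ps q pl p a i (lam par τ) k) ∧
            ((N + 1 : ℕ) : ℂ) * ∑ v ∈ pl (N + 1), (x v : ℂ) * lam par τ v 1 + pw pl p a i (lam par τ) (N + 1) =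
              s (N + 1) * (Real.sqrt q : ℂ) ^ (N + 1) := by
  classical
  have hq0 : 0 < q := by linarith
  have hsq : 0 < Real.sqrt q := Real.sqrt_pos.2 hq0
  have hκ : 0 < kap b ϑ K := kap_pos hP
  have hA0 : 0 < A := by linarith [hP.A1]
  set j : ℕ := N + 1 with hjd
  have hj1 : 1 ≤ j := by omega
  have hjR : (0 : ℝ) < j := by exact_mod_cast hj1
  -- the polynomial of a twist which is complete in degree `j`
  have hA : ∀ τ : T, D i τ ≤ 2 * j →
      ∃ b' : ℂ[X], Uni (D i τ) (ε i τ) b' ∧ (∀ n : ℕ, 2 * n = D i τ → b'.coeff n = 0) ∧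
        Newt (ps q pl p a i (lam par τ)) b' N := by
    intro τ hD
    rcases le_or_gt (D i τ) (2 * N) with h | h
    · exact hinv.pol i τ h
    · obtain ⟨b', h1, h2, h3⟩ := exists_pol hq hκ hF hnum hdat (i := i) (τ := τ)
        (s := ps q pl p a i (lam par τ)) (by
        intro k hk1 hk2
        exact hinv.free i τ k hk1 (by omega) hk2)
      exact ⟨b', h1, h2, fun n hn1 hn2 => h3 n hn1 (by omega)⟩
  -- the forced values
  have hB : ∀ τ : T, ∃ (b' : ℂ[X]) (s : ℕ → ℂ), D i τ ≤ 2 * j → Uni (D i τ) (ε i τ) b' ∧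
      (∀ n : ℕ, 2 * n = D i τ → b'.coeff n = 0) ∧ Newt (ps q pl p a i (lam par τ)) b' N ∧
      (∀ k : ℕ, 1 ≤ k → ‖s k‖ ≤ D i τ) ∧ ∀ N, Newt s b' N := by
    intro τ
    by_cases h : D i τ ≤ 2 * j
    · obtain ⟨b', h3, h4, h5⟩ := hA τ h
      obtain ⟨_, s, h6, h7⟩ := Pool.Agent.Q96.GE.t_TGT _ _ b' h3
      exact ⟨b', s, fun _ => ⟨h3, h4, h5, h6, h7⟩⟩
    · exact ⟨0, 0, fun h' => absurd h' h⟩
  choose bb s hbs using hB
  -- the twists whose period does not divide `j`
  have hoffper : ∀ (x : V → ℝ) (τ : T), D i τ ≤ 2 * j → ¬ per τ ∣ j →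
      (j : ℂ) * ∑ v ∈ pl j, (x v : ℂ) * lam par τ v 1 + pw pl p a i (lam par τ) j =
        s τ j * (Real.sqrt q : ℂ) ^ j := by
    intro x τ hD hper
    obtain ⟨u1, u2, u3, u4, u5⟩ := hbs τ hD
    have h1 : ∀ n : ℕ, ¬ per τ ∣ n → (bb τ).coeff n = 0 := fun n hn =>
      per1 u1 u2 (fun n hn1 hn2 => u3 n hn1 (by omega)) (hdat.per i τ)
        (fun k hk => ps_zero hpl hF i hk) hn
    have h2 := per2 u1.zero h1 u5 j hper
    rw [sum_zero hpl hF x hper, pw_zero hpl hF i hper, h2.resolve_right (by omega)]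
    simp
  -- the set of the complete twists
  obtain ⟨hfin, hcard⟩ := hF.card (2 * j)
  have hfinC : {τ : T | D i τ ≤ 2 * j ∧ per τ ∣ j}.Finite := by
    apply hfin.subset
    rintro τ ⟨h1, _⟩
    exact (hdat.deg i τ).trans h1
  set C : Finset T := hfinC.toFinset with hCd
  have hmemC : ∀ τ, τ ∈ C ↔ D i τ ≤ 2 * j ∧ per τ ∣ j := by
    intro τ
    rw [hCd, Set.Finite.mem_toFinset]
    rfl
  have hcC : (C.card : ℝ) ≤ A * q ^ (2 * b * j - M) := by
    have e : A * q ^ (b * ((2 * j : ℕ) : ℝ) - M) = A * q ^ (2 * b * j - M) := by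
      congr 2
      push_cast
      ring
    rw [← e]
    refine le_trans ?_ hcard
    have : C.card ≤ hfin.toFinset.card := by
      apply card_le_card
      intro τ hτ
      rw [Set.Finite.mem_toFinset]
      exact (hdat.deg i τ).trans ((hmemC τ).1 hτ).1
    rw [Set.ncard_eq_toFinset_card _ hfin]
    exact_mod_cast this
  rcases C.eq_empty_or_nonempty with hCe | hCne
  · -- no twist is complete
    refine ⟨fun _ => 0, ?_, ?_, ?_⟩
    · intro v
      rw [abs_zero]
      exact al_nonneg hq hP.A1 m M j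
    · intro τ hD
      simp only [Complex.ofReal_zero, zero_mul, sum_const_zero, mul_zero, norm_zero]
      have : 0 ≤ Lm q A (eta b) M (c τ) j := by
        unfold Lm
        positivity
      positivity
    · intro τ hD
      have hper : ¬ per τ ∣ j := by
        intro h
        have := (hmemC τ).2 ⟨hD, h⟩
        rw [hCe] at this
        exact absurd this (notMem_empty τ)
      obtain ⟨u1, u2, u3, u4, u5⟩ := hbs τ hD
      refine ⟨bb τ, u1, u2, s τ, u5 j, ?_, ?_⟩
      · intro k hk1 hk2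
        exact newt_unique u1.zero (u5 N) u3 k hk1 hk2
      · exact hoffper (fun _ => 0) τ hD hper
  · have hroom : 1 ≤ A * q ^ (2 * b * j - M) := by
      refine le_trans ?_ hcC
      exact_mod_cast card_pos.2 hCne
    have hbig : ((C.card : ℝ) + 1) * (A * (4 * j + 1) * Real.sqrt q ^ j) ≤ q ^ j / 2 := by
      refine le_trans ?_ (hnum.dd j hj1 hroom)
      apply mul_le_mul_of_nonneg_right _ (by positivity)
      linarith
    have hconjC : ∀ τ ∈ C, dual τ ∈ C := by
      intro τ hτ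
      rw [hmemC] at hτ ⊢
      rw [hdat.degc, hF.dual_per]
      exact hτ
    have hsconj : ∀ τ ∈ C, s (dual τ) j = conj (s τ j) := by
      intro τ hτ
      obtain ⟨u1, u2, u3, u4, u5⟩ := hbs τ ((hmemC τ).1 hτ).1
      obtain ⟨w1, w2, w3, w4, w5⟩ := hbs _ ((hmemC _).1 (hconjC τ hτ)).1
      rw [hdat.degc i τ, hdat.epsc i τ] at w1
      rw [hdat.degc i τ] at w2
      have u1' := uni_conj u1
      have u3' := newt_conj u3
      have hD2 : D i τ ≤ 2 * j := ((hmemC τ).1 hτ).1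
      have e : bb (dual τ) = (bb τ).map (starRingEnd ℂ) := by
        refine uni_unique (s := fun k => conj (ps q pl p a i (lam par τ) k)) w1 u1' w2 ?_ ?_ ?_
        · intro n hn
          rw [coeff_map, u2 n hn, map_zero]
        · intro n hn1 hn2
          rw [w3 n hn1 (by omega)]
          apply sum_congr rfl
          intro k _
          rw [ps_conj hF]
        · intro n hn1 hn2
          exact u3' n hn1 (by omega)
      have u5' := newt_conj (u5 j)
      rw [← e] at u5'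
      exact newt_unique w1.zero (w5 j) u5' j hj1 le_rfl
    set t : T → ℂ := fun τ =>
      (s τ j * (Real.sqrt q : ℂ) ^ j - pw pl p a i (lam par τ) j) / (j : ℂ) with htd
    have hpw : ∀ τ : T, ‖pw pl p a i (lam par τ) j‖ ≤ Rm q A B (kap b ϑ K) m M j * Real.sqrt q ^ j :=
      fun τ => rpw hq hP hpl hF hp (fun j' hj' => al_le hq hP hnum hj') hj1
        (fun v i' hv => hinv.small v i' (by omega)) i τ
    have ht : ∀ τ ∈ C, ‖t τ‖ ≤ 3 * Real.sqrt q ^ j ∧ t (dual τ) = conj (t τ) := by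
      intro τ hτ
      obtain ⟨u1, u2, u3, u4, u5⟩ := hbs τ ((hmemC τ).1 hτ).1
      have hjc : (j : ℂ) ≠ 0 := by exact_mod_cast hjR.ne'
      have h2 : D i τ ≤ 2 * j := ((hmemC τ).1 hτ).1
      constructor
      · rw [htd]
        show ‖(s τ j * (Real.sqrt q : ℂ) ^ j - pw pl p a i (lam par τ) j) / (j : ℂ)‖ ≤ _
        rw [norm_div, Complex.norm_natCast, div_le_iff₀ hjR]
        refine (norm_sub_le _ _).trans ?_
        have h3 : ‖s τ j * (Real.sqrt q : ℂ) ^ j‖ ≤ 2 * j * Real.sqrt q ^ j := by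
          rw [norm_mul, norm_pow, Complex.norm_real, Real.norm_eq_abs, abs_of_pos hsq]
          apply mul_le_mul_of_nonneg_right _ (by positivity)
          refine (u4 j hj1).trans ?_
          exact_mod_cast h2
        have h4 := hpw τ
        have h5 := hnum.pp j hj1 hroom
        have h6 : Rm q A B (kap b ϑ K) m M j * Real.sqrt q ^ j ≤ j * Real.sqrt q ^ j :=
          mul_le_mul_of_nonneg_right h5 (by positivity)
        linarith
      · rw [htd]
        show (s (dual τ) j * (Real.sqrt q : ℂ) ^ j - pw pl p a i (lam par (dual τ)) j) / (j : ℂ) =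
          conj ((s τ j * (Real.sqrt q : ℂ) ^ j - pw pl p a i (lam par τ) j) / (j : ℂ))
        rw [hsconj τ hτ, pw_conj hF, map_div₀, map_sub, map_mul, map_pow, Complex.conj_ofReal, map_natCast]
    obtain ⟨x, hx1, hx2, hx3⟩ := gsl hq hP.A1 hF hj1 C (by
        intro τ hτ
        have h1 := (hmemC τ).1 hτ
        exact ⟨(hdat.deg i τ).trans h1.1, h1.2, hconjC τ hτ⟩) hbig t ht
    have hqj : 0 < q ^ j := pow_pos hq0 j
    have hfac : 2 * (j : ℝ) * (3 * Real.sqrt q ^ j) / q ^ j = 6 * j * q ^ (-((j : ℝ) / 2)) := by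
      rw [sqrt_pow_eq hq0, div_eq_iff hqj.ne', ← Real.rpow_natCast q j]
      have : q ^ (-((j : ℝ) / 2)) * q ^ (j : ℝ) = q ^ ((j : ℝ) / 2) := by
        rw [← Real.rpow_add hq0]
        congr 1
        ring
      calc 2 * (j : ℝ) * (3 * q ^ ((j : ℝ) / 2)) = 6 * j * q ^ ((j : ℝ) / 2) := by ring
        _ = 6 * j * (q ^ (-((j : ℝ) / 2)) * q ^ (j : ℝ)) := by rw [this]
        _ = _ := by ring
    rw [hfac] at hx2 hx3
    refine ⟨x, fun v => (hx2 v).trans ?_, ?_, ?_⟩
    · calc (C.card : ℝ) * m * (6 * j * q ^ (-((j : ℝ) / 2))) ≤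
          (A * q ^ (2 * b * j - M)) * m * (6 * j * q ^ (-((j : ℝ) / 2))) := by
            apply mul_le_mul_of_nonneg_right _ (by positivity)
            exact mul_le_mul_of_nonneg_right hcC (Nat.cast_nonneg m)
        _ = 6 * m * A * j * (q ^ (2 * b * j - (M : ℝ)) * q ^ (-((j : ℝ) / 2))) := by ring
        _ = al q A (eta b) m M j := by
            unfold al
            rw [← Real.rpow_add hq0]
            congr 2
            unfold eta
            ring
    · intro τ hD
      have hnot : τ ∉ C := by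
        intro h
        have := ((hmemC τ).1 h).1
        omega
      have h1 := hx3 τ hnot
      rw [norm_mul, Complex.norm_natCast]
      refine h1.trans ?_
      calc (C.card : ℝ) * (6 * j * q ^ (-((j : ℝ) / 2))) * (A * (c τ + 2 * j + 1) * Real.sqrt q ^ j) ≤
          (A * q ^ (2 * b * j - M)) * (6 * j * q ^ (-((j : ℝ) / 2))) *
            (A * (c τ + 2 * j + 1) * Real.sqrt q ^ j) := by
            apply mul_le_mul_of_nonneg_right _ (by positivity)
            exact mul_le_mul_of_nonneg_right hcC (by positivity)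
        _ = 6 * A ^ 2 * j * (q ^ (2 * b * j - (M : ℝ)) * q ^ (-((j : ℝ) / 2))) * (c τ + 2 * j + 1) *
            Real.sqrt q ^ j := by ring
        _ = Lm q A (eta b) M (c τ) j * Real.sqrt q ^ j := by
            unfold Lm
            rw [← Real.rpow_add hq0]
            congr 4
            unfold eta
            ring
    · intro τ hD
      obtain ⟨u1, u2, u3, u4, u5⟩ := hbs τ hD
      refine ⟨bb τ, u1, u2, s τ, u5 j, ?_, ?_⟩
      · intro k hk1 hk2
        exact newt_unique u1.zero (u5 N) u3 k hk1 hk2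
      · by_cases hper : per τ ∣ j
        · rw [hx1 τ ((hmemC τ).2 ⟨hD, hper⟩), htd]
          have hjc : (j : ℂ) ≠ 0 := by exact_mod_cast hjR.ne'
          show (j : ℂ) * ((s τ j * (Real.sqrt q : ℂ) ^ j - pw pl p a i (lam par τ) j) / (j : ℂ)) +
            pw pl p a i (lam par τ) j = _
          rw [mul_div_self' hjc]
          ring
        · exact hoffper x τ hD hper

end Step

end Pool.Agent.Q284.CT
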